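import Mathlib

/-!
# OR powers, OR capacity and generalized Mycielskians (MP_5c786f_co)
-/

namespace Pool.Agent.Lib.MP_5c786f_co

open Filter Topology

/-- The co-normal (OR) power of `G` with index set `ι`: two words are adjacent iff they are
adjacent in at least one coordinate. For `ι = Fin t` this is the `t`-fold power. -/
def orPow {V : Type} (G : SimpleGraph V) (ι : Type) : SimpleGraph (ι → V) where
  Adj x y := ∃ j, G.Adj (x j) (y j)
  symm := ⟨fun _ _ ⟨j, h⟩ => ⟨j, h.symm⟩⟩
  loopless := ⟨fun x ⟨j, h⟩ => G.irrefl h⟩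

/-- `c` is the OR capacity of `G`: the limit of `ω(G^{∨t})^{1/t}` as `t → ∞`. -/
def IsOrCap {V : Type} (G : SimpleGraph V) (c : ℝ) : Prop :=
  Tendsto (fun t : ℕ => ((orPow G (Fin t)).cliqueNum : ℝ) ^ ((t : ℝ)⁻¹)) atTop (𝓝 c)

/-- The adjacency of the generalized Mycielskian `M_r(G)`; the vertex `z` is `none`, the vertex
`(u, i)` is `some (u, i)`. -/
def mycAdj {V : Type} (G : SimpleGraph V) (r : ℕ) : Option (V × Fin r) → Option (V × Fin r) → Prop
  | none, none => False
  | none, some p => (p.2 : ℕ) + 1 = r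
  | some p, none => (p.2 : ℕ) + 1 = r
  | some p, some q => G.Adj p.1 q.1 ∧
      (((p.2 : ℕ) = 0 ∧ (q.2 : ℕ) = 0) ∨ (p.2 : ℕ) + 1 = q.2 ∨ (q.2 : ℕ) + 1 = p.2)

/-- The generalized Mycielskian `M_r(G)`: copies `(u, 0), …, (u, r - 1)` of every vertex `u` and
one more vertex `z`; for every edge `uv` of `G` the edges `(u,0)(v,0)` and `(u,i)(v,i+1)`, and the
edges `(u, r - 1) z`. -/
def mycielskian {V : Type} (G : SimpleGraph V) (r : ℕ) : SimpleGraph (Option (V × Fin r)) where
  Adj := mycAdj G r
  symm := ⟨by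
    rintro (_ | p) (_ | q) h
    · exact h
    · exact h
    · exact h
    · exact ⟨h.1.symm, by rcases h.2 with ⟨h1, h2⟩ | h1 | h1 <;> tauto⟩⟩
  loopless := ⟨by
    rintro (_ | p) h
    · exact h
    · exact G.irrefl h.1⟩

/-- The join of `a` copies of the pentagon `C_5` and of the complete graph `K_n`: the vertices are
`(b, i)` with `b < a`, `i ∈ ℤ/5`, and `n` more vertices; `(b, i)` and `(b, j)` are adjacent iff
`i - j = ± 1`, and all other pairs of distinct vertices are adjacent. -/
def pentJoin (a n : ℕ) : SimpleGraph (Fin a × ZMod 5 ⊕ Fin n) where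
  Adj x y := match x, y with
    | Sum.inl p, Sum.inl q => p.1 ≠ q.1 ∨ p.2 = q.2 + 1 ∨ q.2 = p.2 + 1
    | Sum.inl _, Sum.inr _ => True
    | Sum.inr _, Sum.inl _ => True
    | Sum.inr i, Sum.inr j => i ≠ j
  symm := ⟨by
    rintro (p | i) (q | j) h
    · rcases h with h | h | h
      · exact Or.inl (Ne.symm h)
      · exact Or.inr (Or.inr h)
      · exact Or.inr (Or.inl h)
    · trivial
    · trivial
    · exact Ne.symm h⟩
  loopless := ⟨by
    rintro (p | i) h
    · rcases h with h | h | h
      · exact h rfl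
      · have : (1 : ZMod 5) = 0 := by
          have h' : p.2 + 0 = p.2 + 1 := by rw [add_zero]; exact h
          exact (add_left_cancel h').symm
        exact absurd this (by decide)
      · have : (1 : ZMod 5) = 0 := by
          have h' : p.2 + 0 = p.2 + 1 := by rw [add_zero]; exact h
          exact (add_left_cancel h').symm
        exact absurd this (by decide)
    · exact h rfl⟩

end Pool.Agent.Lib.MP_5c786f_co
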