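import Pool.Agent.Lib.MP_5c786f_co.PentCap

/-!
# The final form (MP_5c786f_co)
-/

namespace Pool.Agent.Lib.MP_5c786f_co

open Filter Topology

theorem one_le_cap {V : Type} [Finite V] [Nonempty V] {G : SimpleGraph V} {c : ℝ}
    (hc : IsOrCap G c) : 1 ≤ c :=
  ge_of_tendsto' hc fun t => Real.one_le_rpow (by exact_mod_cast num_pos G t) (by positivity)

theorem final_strict {V : Type} [Finite V] [Nonempty V] (G : SimpleGraph V) (T m : ℕ)
    (k : Fin m → ℕ) (S : Fin m → Set (Fin T → V)) (Q : ∀ i, Finset (Fin (k i) → Fin T → V))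
    (hT : 1 ≤ T) (hk : ∀ i, 1 ≤ k i)
    (hS : ∀ i i', i ≠ i' → ∀ x ∈ S i, ∀ y ∈ S i', (orPow G (Fin T)).Adj x y)
    (hQc : ∀ i, (orPow (orPow G (Fin T)) (Fin (k i))).IsClique
      (Q i : Set (Fin (k i) → Fin T → V)))
    (hQS : ∀ i, ∀ w ∈ Q i, ∀ j, w j ∈ S i)
    (c c' : ℝ) (hc : IsOrCap G c) (hc' : IsOrCap (mycielskian G 2) c')
    (hsum : c ^ T ≤ ∑ i, ((Q i).card : ℝ) ^ ((k i : ℝ)⁻¹)) : c < c' := by
  classical
  have hc1 : (0 : ℝ) < c ^ T := pow_pos (lt_of_lt_of_le zero_lt_one (one_le_cap hc)) T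
  have hzero : ∀ i, ¬ (Q i).Nonempty → ((Q i).card : ℝ) ^ ((k i : ℝ)⁻¹) = 0 := by
    intro i hi
    rw [Finset.not_nonempty_iff_eq_empty] at hi
    have hki : ((k i : ℝ)⁻¹) ≠ 0 := by
      have : (0 : ℝ) < k i := by exact_mod_cast hk i
      positivity
    rw [hi, Finset.card_empty, Nat.cast_zero, Real.zero_rpow hki]
  have hsum' : ∑ i, ((Q i).card : ℝ) ^ ((k i : ℝ)⁻¹) =
      ∑ i : {i : Fin m // (Q i).Nonempty}, ((Q i.1).card : ℝ) ^ ((k i.1 : ℝ)⁻¹) := by
    rw [← Finset.sum_subtype (Finset.univ.filter fun i => (Q i).Nonempty) (by simp)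
      (fun i => ((Q i).card : ℝ) ^ ((k i : ℝ)⁻¹)), Finset.sum_filter]
    apply Finset.sum_congr rfl
    intro i _
    by_cases hi : (Q i).Nonempty
    · rw [if_pos hi]
    · rw [if_neg hi, hzero i hi]
  have hne : Nonempty {i : Fin m // (Q i).Nonempty} := by
    by_contra hcon
    rw [not_nonempty_iff] at hcon
    rw [hsum'] at hsum
    simp at hsum
    linarith
  apply lt_of_gain hc'.nonneg (T := T)
  exact join_gain' (I := {i : Fin m // (Q i).Nonempty}) G T (fun i => k i.1) hT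
    (fun i => hk i.1) (fun i => S i.1) (fun i i' hii => hS i.1 i'.1 fun h => hii (Subtype.ext h))
    (fun i => Q i.1) (fun i => i.2) (fun i => hQc i.1) (fun i => hQS i.1) c c' hc hc'
    (hsum.trans (le_of_eq hsum'))

end Pool.Agent.Lib.MP_5c786f_co
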