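import Pool.Agent.Lib.MP_5c786f_co.Low

/-!
# The lifting construction (MP_5c786f_co)
-/

namespace Pool.Agent.Lib.MP_5c786f_co

open Filter Topology

/-- level-0 copy of a vertex in `M(H)`. -/
def lo {W : Type} (u : W) : Option (W × Fin 2) := some (u, 0)

/-- level-1 (top) copy of a vertex in `M(H)`. -/
def hi {W : Type} (u : W) : Option (W × Fin 2) := some (u, 1)

theorem adj_lo_lo {W : Type} {H : SimpleGraph W} {u v : W} (h : H.Adj u v) :
    (mycielskian H 2).Adj (lo u) (lo v) := by
  refine ⟨h, Or.inl ⟨rfl, rfl⟩⟩

theorem adj_lo_hi {W : Type} {H : SimpleGraph W} {u v : W} (h : H.Adj u v) :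
    (mycielskian H 2).Adj (lo u) (hi v) := by
  refine ⟨h, Or.inr (Or.inl rfl)⟩

theorem adj_hi_lo {W : Type} {H : SimpleGraph W} {u v : W} (h : H.Adj u v) :
    (mycielskian H 2).Adj (hi u) (lo v) := (adj_lo_hi h.symm).symm

theorem adj_hi_z {W : Type} {H : SimpleGraph W} (u : W) :
    (mycielskian H 2).Adj (hi u) none := rfl

/-- letter `u`, raised iff `p`. -/
noncomputable def rz {W : Type} (p : Prop) [Decidable p] (u : W) : Option (W × Fin 2) :=
  if p then hi u else lo u

theorem adj_rz {W : Type} {H : SimpleGraph W} {u v : W} (h : H.Adj u v) {p q : Prop}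
    [Decidable p] [Decidable q] (hpq : ¬ (p ∧ q)) :
    (mycielskian H 2).Adj (rz p u) (rz q v) := by
  unfold rz
  by_cases hp : p
  · have hq : ¬ q := fun hq => hpq ⟨hp, hq⟩
    rw [if_pos hp, if_neg hq]
    exact adj_hi_lo h
  · by_cases hq : q
    · rw [if_neg hp, if_pos hq]
      exact adj_lo_hi h
    · rw [if_neg hp, if_neg hq]
      exact adj_lo_lo h

theorem rz_inj {W : Type} {u v : W} {p q : Prop} [Decidable p] [Decidable q]
    (h : rz p u = rz q v) : u = v := by
  unfold rz at h
  by_cases hp : p <;> by_cases hq : q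
  · rw [if_pos hp, if_pos hq] at h
    exact (Prod.mk.inj (Option.some.inj h)).1
  · rw [if_pos hp, if_neg hq] at h
    exact (Prod.mk.inj (Option.some.inj h)).1
  · rw [if_neg hp, if_pos hq] at h
    exact (Prod.mk.inj (Option.some.inj h)).1
  · rw [if_neg hp, if_neg hq] at h
    exact (Prod.mk.inj (Option.some.inj h)).1

section Construction

variable {W I D X : Type} [Fintype I] [AddCommGroup I] [Fintype D] [AddCommGroup D]
  [Fintype X] [Fintype (X → I)]

/-- positions: regions are indexed by the status patterns `X → I` of one region. -/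
abbrev Pos (I X : Type) : Type := (X → I) × X

/-- the hash of a status word: the sum of its restrictions to the regions. -/
def hash (σ : Pos I X → I) : X → I := ∑ κ : X → I, fun x => σ (κ, x)

/-- Two different status words with the same hash differ outside the region of this number. -/
theorem hash_spec {σ σ' : Pos I X → I} (hne : σ ≠ σ') (hh : hash σ = hash σ') :
    ∃ p : Pos I X, σ p ≠ σ' p ∧ p.1 ≠ hash σ := by
  classical
  by_contra hcon
  push Not at hcon
  apply hne
  have hout : ∀ κ, κ ≠ hash σ → (fun x => σ (κ, x)) = fun x => σ' (κ, x) := by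
    intro κ hκ
    funext x
    by_contra h
    exact hκ (hcon (κ, x) h)
  have hin : (fun x => σ (hash σ, x)) = fun x => σ' (hash σ, x) := by
    have h1 := hh
    unfold hash at h1
    rw [← Finset.add_sum_erase _ _ (Finset.mem_univ (hash σ)),
      ← Finset.add_sum_erase _ (fun κ : X → I => fun x => σ' (κ, x))
        (Finset.mem_univ (hash σ))] at h1
    have h2 : ∑ κ ∈ Finset.univ.erase (hash σ), (fun x => σ (κ, x))
        = ∑ κ ∈ Finset.univ.erase (hash σ), fun x => σ' (κ, x) := by
      apply Finset.sum_congr rfl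
      intro κ hκ
      exact hout κ (Finset.ne_of_mem_erase hκ)
    rw [h2] at h1
    exact add_right_cancel h1
  funext p
  obtain ⟨κ, x⟩ := p
  by_cases hκ : κ = hash σ
  · rw [hκ]
    exact congrFun hin x
  · exact congrFun (hout κ hκ) x

omit [AddCommGroup I] [AddCommGroup D] [Fintype (X → I)] in
/-- Pigeonhole: a status which occurs at `|D|` places of a region. -/
theorem exists_places (hX : Fintype.card I * Fintype.card D ≤ Fintype.card X) [Nonempty I]
    (f : X → I) : ∃ (i : I) (e : D → X), Function.Injective e ∧ ∀ t, f (e t) = i := by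
  classical
  obtain ⟨i, hi⟩ := Fintype.exists_le_card_fiber_of_mul_le_card f hX
  have h2 : Fintype.card D ≤ Fintype.card {x // f x = i} := by
    rw [Fintype.card_subtype]
    exact hi
  obtain ⟨e⟩ := Function.Embedding.nonempty_of_card_le h2
  exact ⟨i, fun t => (e t : X), fun a b hab => e.injective (Subtype.ext hab), fun t => (e t).2⟩

end Construction

end Pool.Agent.Lib.MP_5c786f_co
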