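import Pool.Agent.Lib.MP_5c786f_co.Strict

/-!
# The OR capacity exists, and the bound of Lovász for cliques in OR powers (MP_5c786f_co)
-/

namespace Pool.Agent.Lib.MP_5c786f_co

open Filter Topology

theorem num_pos {V : Type} [Finite V] [Nonempty V] (G : SimpleGraph V) (t : ℕ) :
    1 ≤ (orPow G (Fin t)).cliqueNum := by
  have v : V := Classical.arbitrary V
  have h := card_le_num G ({fun _ => v} : Finset (Fin t → V)) (by simp) t (by simp)
  simpa using h

theorem num_mul {V : Type} [Finite V] (G : SimpleGraph V) (s t : ℕ) :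
    (orPow G (Fin s)).cliqueNum * (orPow G (Fin t)).cliqueNum ≤
      (orPow G (Fin (s + t))).cliqueNum := by
  classical
  obtain ⟨P, hP⟩ := (orPow G (Fin s)).exists_isNClique_cliqueNum
  obtain ⟨R, hR⟩ := (orPow G (Fin t)).exists_isNClique_cliqueNum
  rw [← hP.card_eq, ← hR.card_eq, ← Finset.card_product]
  set f : ((Fin s → V) × (Fin t → V)) → (Fin s ⊕ Fin t → V) := fun p => Sum.elim p.1 p.2 with hf
  have hinj : Function.Injective f := by
    rintro ⟨a, b⟩ ⟨a', b'⟩ h
    have h1 : a = a' := by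
      funext x
      exact congrFun h (Sum.inl x)
    have h2 : b = b' := by
      funext x
      exact congrFun h (Sum.inr x)
    rw [h1, h2]
  have hcard : ((P ×ˢ R).map ⟨f, hinj⟩).card = (P ×ˢ R).card := Finset.card_map _
  rw [← hcard]
  apply card_le_num
  · intro u hu v hv huv
    simp only [Finset.coe_map, Function.Embedding.coeFn_mk, Set.mem_image, Finset.mem_coe,
      Finset.mem_product] at hu hv
    obtain ⟨⟨a, b⟩, ⟨ha, hb⟩, rfl⟩ := hu
    obtain ⟨⟨a', b'⟩, ⟨ha', hb'⟩, rfl⟩ := hv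
    by_cases h1 : a = a'
    · have h2 : b ≠ b' := by
        intro h2
        exact huv (by rw [h1, h2])
      obtain ⟨j, hj⟩ := hR.isClique hb hb' h2
      exact ⟨Sum.inr j, hj⟩
    · obtain ⟨j, hj⟩ := hP.isClique ha ha' h1
      exact ⟨Sum.inl j, hj⟩
  · simp

theorem num_le {V : Type} [Finite V] (G : SimpleGraph V) (t : ℕ) :
    (orPow G (Fin t)).cliqueNum ≤ Nat.card V ^ t := by
  classical
  haveI := Fintype.ofFinite V
  obtain ⟨P, hP⟩ := (orPow G (Fin t)).exists_isNClique_cliqueNum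
  rw [← hP.card_eq]
  refine (Finset.card_le_univ P).trans ?_
  simp

/-- The OR capacity exists (Fekete). -/
theorem exists_orCap {V : Type} [Finite V] [Nonempty V] (G : SimpleGraph V) :
    ∃ c, IsOrCap G c := by
  set u : ℕ → ℝ := fun t => - Real.log ((orPow G (Fin t)).cliqueNum : ℝ) with hu
  have hpos : ∀ t, (0 : ℝ) < ((orPow G (Fin t)).cliqueNum : ℝ) := fun t => by
    exact_mod_cast num_pos G t
  have hsub : Subadditive u := by
    intro m n
    rw [hu]
    simp only
    rw [← neg_add, neg_le_neg_iff, ← Real.log_mul (hpos m).ne' (hpos n).ne']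
    apply Real.log_le_log (mul_pos (hpos m) (hpos n))
    exact_mod_cast num_mul G m n
  have hbdd : BddBelow (Set.range fun n : ℕ => u n / n) := by
    refine ⟨- Real.log (Nat.card V), ?_⟩
    rintro x ⟨n, rfl⟩
    simp only
    rcases Nat.eq_zero_or_pos n with h0 | h0
    · subst h0
      simp only [Nat.cast_zero, div_zero, Left.neg_nonpos_iff]
      exact Real.log_natCast_nonneg _
    · have hn : (0 : ℝ) < n := by exact_mod_cast h0
      rw [le_div_iff₀ hn, hu]
      simp only
      rw [neg_mul, neg_le_neg_iff, mul_comm, ← Real.log_pow]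
      apply Real.log_le_log (hpos n)
      exact_mod_cast num_le G n
  have hlim := hsub.tendsto_lim hbdd
  refine ⟨Real.exp (-hsub.lim), ?_⟩
  have h2 := (Real.continuous_exp.tendsto _).comp hlim.neg
  refine h2.congr fun t => ?_
  rw [Function.comp_apply, Real.rpow_def_of_pos (hpos t)]
  congr 1
  rw [hu]
  simp only
  rw [neg_div, neg_neg, div_eq_mul_inv]

/-- The bound of Lovász: unit vectors `v x`, orthogonal for adjacent vertices, and a unit vector
`e` with `1 ≤ θ ⟨e, v x⟩²` bound the cliques of the OR powers by `θ ^ t`. -/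
theorem lovasz_bound {V A : Type} [Fintype A] (G : SimpleGraph V) (v : V → A → ℝ) (e : A → ℝ)
    (θ : ℝ) (hort : ∀ x y, G.Adj x y → ∑ a, v x a * v y a = 0) (hv : ∀ x, ∑ a, v x a ^ 2 = 1)
    (he : ∑ a, e a ^ 2 = 1) (hθ : ∀ x, 1 ≤ θ * (∑ a, e a * v x a) ^ 2) (hθ0 : 0 ≤ θ)
    (t : ℕ) (Q : Finset (Fin t → V)) (hQ : (orPow G (Fin t)).IsClique (Q : Set (Fin t → V))) :
    (Q.card : ℝ) ≤ θ ^ t := by
  classical
  -- tensor powers
  set U : (Fin t → V) → (Fin t → A) → ℝ := fun x s => ∏ j, v (x j) (s j) with hU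
  set E : (Fin t → A) → ℝ := fun s => ∏ j, e (s j) with hE
  have prodsum : ∀ f : Fin t → A → ℝ, ∑ s : Fin t → A, ∏ j, f j (s j) = ∏ j, ∑ a, f j a := by
    intro f
    rw [Finset.prod_univ_sum, Fintype.piFinset_univ]
  have hUU : ∀ x y, ∑ s, U x s * U y s = ∏ j, ∑ a, v (x j) a * v (y j) a := by
    intro x y
    rw [← prodsum]
    apply Finset.sum_congr rfl
    intro s _
    rw [hU, ← Finset.prod_mul_distrib]
  have hUU1 : ∀ x, ∑ s, U x s * U x s = 1 := by
    intro x
    rw [hUU]
    apply Finset.prod_eq_one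
    intro j _
    rw [← hv (x j)]
    apply Finset.sum_congr rfl
    intro a _
    ring
  have hUU0 : ∀ x ∈ Q, ∀ y ∈ Q, x ≠ y → ∑ s, U x s * U y s = 0 := by
    intro x hx y hy hxy
    rw [hUU]
    obtain ⟨j, hj⟩ := hQ hx hy hxy
    exact Finset.prod_eq_zero (Finset.mem_univ j) (hort _ _ hj)
  have hEU : ∀ x, ∑ s, E s * U x s = ∏ j, ∑ a, e a * v (x j) a := by
    intro x
    rw [← prodsum]
    apply Finset.sum_congr rfl
    intro s _
    rw [hU, hE, ← Finset.prod_mul_distrib]
  have hEE : ∑ s, E s * E s = 1 := by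
    have h1 : ∑ s, E s * E s = ∏ _j : Fin t, ∑ a, e a * e a := by
      rw [← prodsum]
      apply Finset.sum_congr rfl
      intro s _
      rw [hE, ← Finset.prod_mul_distrib]
    rw [h1]
    apply Finset.prod_eq_one
    intro j _
    rw [← he]
    apply Finset.sum_congr rfl
    intro a _
    ring
  set c : (Fin t → V) → ℝ := fun x => ∑ s, E s * U x s with hc
  have hc1 : ∀ x, 1 ≤ θ ^ t * c x ^ 2 := by
    intro x
    rw [hc]
    simp only
    rw [hEU, ← Finset.prod_pow]
    have : θ ^ t = ∏ _j : Fin t, θ := by simp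
    rw [this, ← Finset.prod_mul_distrib]
    calc (1 : ℝ) = ∏ _j : Fin t, (1 : ℝ) := by simp
      _ ≤ _ := Finset.prod_le_prod (fun _ _ => zero_le_one) (fun j _ => hθ (x j))
  -- Bessel
  have hbes : ∑ x ∈ Q, c x ^ 2 ≤ 1 := by
    have h0 : 0 ≤ ∑ s, (E s - ∑ x ∈ Q, c x * U x s) ^ 2 :=
      Finset.sum_nonneg fun s _ => sq_nonneg _
    have h1 : ∑ s, (E s - ∑ x ∈ Q, c x * U x s) ^ 2 =
        ∑ s, E s * E s - 2 * ∑ s, E s * ∑ x ∈ Q, c x * U x s
          + ∑ s, (∑ x ∈ Q, c x * U x s) * ∑ y ∈ Q, c y * U y s := by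
      rw [Finset.mul_sum, ← Finset.sum_sub_distrib, ← Finset.sum_add_distrib]
      apply Finset.sum_congr rfl
      intro s _
      ring
    have h2 : ∑ s, E s * ∑ x ∈ Q, c x * U x s = ∑ x ∈ Q, c x ^ 2 := by
      simp_rw [Finset.mul_sum]
      rw [Finset.sum_comm]
      apply Finset.sum_congr rfl
      intro x _
      rw [pow_two]
      nth_rewrite 3 [hc]
      simp only
      rw [Finset.mul_sum]
      apply Finset.sum_congr rfl
      intro s _
      ring
    have h3 : ∑ s, (∑ x ∈ Q, c x * U x s) * ∑ y ∈ Q, c y * U y s = ∑ x ∈ Q, c x ^ 2 := by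
      simp_rw [Finset.sum_mul_sum]
      rw [Finset.sum_comm]
      apply Finset.sum_congr rfl
      intro x hx
      rw [Finset.sum_comm, Finset.sum_eq_single_of_mem x hx]
      · have : ∑ s, c x * U x s * (c x * U x s) = c x ^ 2 * ∑ s, U x s * U x s := by
          rw [Finset.mul_sum]
          apply Finset.sum_congr rfl
          intro s _
          ring
        rw [this, hUU1, mul_one]
      · intro y hy hyx
        have : ∑ s, c x * U x s * (c y * U y s) = c x * c y * ∑ s, U x s * U y s := by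
          rw [Finset.mul_sum]
          apply Finset.sum_congr rfl
          intro s _
          ring
        rw [this, hUU0 x hx y hy hyx.symm, mul_zero]
    rw [h1, h2, h3, hEE] at h0
    linarith
  have hfin : (Q.card : ℝ) ≤ ∑ x ∈ Q, θ ^ t * c x ^ 2 := by
    calc (Q.card : ℝ) = ∑ _x ∈ Q, (1 : ℝ) := by simp
      _ ≤ _ := Finset.sum_le_sum fun x _ => hc1 x
  rw [← Finset.mul_sum] at hfin
  calc (Q.card : ℝ) ≤ θ ^ t * ∑ x ∈ Q, c x ^ 2 := hfin
    _ ≤ θ ^ t * 1 := mul_le_mul_of_nonneg_left hbes (by positivity)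
    _ = θ ^ t := mul_one _

end Pool.Agent.Lib.MP_5c786f_co
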