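import Pool.Agent.Lib.MP_5c786f_co.Defs

/-!
# Asymptotic lower bounds for cliques in OR powers (MP_5c786f_co)
-/

namespace Pool.Agent.Lib.MP_5c786f_co

open Filter Topology

/-- `α` is an asymptotic lower bound (up to a constant factor) for the cliques of the OR powers of
`H` whose words have all letters in `S`. -/
def LB {W : Type} (H : SimpleGraph W) (S : Set W) (α : ℝ) : Prop :=
  ∃ C : ℝ, 1 ≤ C ∧ ∀ (ι : Type) [Fintype ι], ∃ Q : Finset (ι → W),
    (orPow H ι).IsClique (Q : Set (ι → W)) ∧ (∀ w ∈ Q, ∀ j, w j ∈ S) ∧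
      α ^ (Fintype.card ι) ≤ C * Q.card

theorem LB.mono {W : Type} {H : SimpleGraph W} {S S' : Set W} {α : ℝ} (h : LB H S α)
    (hS : S ⊆ S') : LB H S' α := by
  obtain ⟨C, hC, h⟩ := h
  refine ⟨C, hC, fun ι _ => ?_⟩
  obtain ⟨Q, h1, h2, h3⟩ := h ι
  exact ⟨Q, h1, fun w hw j => hS (h2 w hw j), h3⟩

theorem LB_empty {W : Type} (H : SimpleGraph W) : LB H ∅ 0 := by
  classical
  refine ⟨1, le_refl _, fun ι _ => ?_⟩
  by_cases hι : IsEmpty ι
  · refine ⟨{fun i => isEmptyElim i}, ?_, ?_, ?_⟩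
    · simp
    · intro w _ j
      exact isEmptyElim j
    · simp
  · rw [not_isEmpty_iff] at hι
    refine ⟨∅, ?_, ?_, ?_⟩
    · simp
    · intro w hw
      simp at hw
    · rw [zero_pow Fintype.card_ne_zero]
      simp

theorem LB_union {W : Type} {H : SimpleGraph W} {S S' : Set W} {α β : ℝ} (hα : 0 ≤ α)
    (hβ : 0 ≤ β) (h : LB H S α) (h' : LB H S' β) (hj : ∀ x ∈ S, ∀ y ∈ S', H.Adj x y) :
    LB H (S ∪ S') (α + β) := by
  classical
  obtain ⟨C, hC, h⟩ := h
  obtain ⟨C', hC', h'⟩ := h'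
  refine ⟨C * C', by nlinarith, fun ι _ => ?_⟩
  choose Q hQ1 hQ2 hQ3 using fun A : Finset ι => h {x // x ∈ A}
  choose R hR1 hR2 hR3 using fun A : Finset ι => h' {x // ¬ x ∈ A}
  set T : Finset ι → Finset (ι → W) := fun A =>
    (Q A ×ˢ R A).map (Equiv.piEquivPiSubtypeProd (fun x => x ∈ A) (fun _ => W)).symm.toEmbedding
    with hT
  have hmem : ∀ A w, w ∈ T A ↔ ((fun x : {x // x ∈ A} => w x) ∈ Q A ∧
      (fun x : {x // ¬ x ∈ A} => w x) ∈ R A) := by
    intro A w
    rw [hT]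
    simp only [Finset.mem_map_equiv, Finset.mem_product]
    rfl
  have hin : ∀ A w, w ∈ T A → ∀ x ∈ A, w x ∈ S := by
    intro A w hw x hx
    exact hQ2 A _ ((hmem A w).1 hw).1 ⟨x, hx⟩
  have hout : ∀ A w, w ∈ T A → ∀ x, x ∉ A → w x ∈ S' := by
    intro A w hw x hx
    exact hR2 A _ ((hmem A w).1 hw).2 ⟨x, hx⟩
  have hne : ∀ A A', A ≠ A' → ∀ w ∈ T A, ∀ w' ∈ T A', (orPow H ι).Adj w w' := by
    intro A A' hA w hw w' hw'
    have : ∃ x, ¬ (x ∈ A ↔ x ∈ A') := by
      by_contra hcon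
      push Not at hcon
      exact hA (Finset.ext hcon)
    obtain ⟨x, hx⟩ := this
    by_cases hxA : x ∈ A
    · have hxA' : x ∉ A' := fun h2 => hx ⟨fun _ => h2, fun _ => hxA⟩
      exact ⟨x, hj _ (hin A w hw x hxA) _ (hout A' w' hw' x hxA')⟩
    · have hxA' : x ∈ A' := by
        by_contra h2
        exact hx ⟨fun h3 => absurd h3 hxA, fun h3 => absurd h3 h2⟩
      exact ⟨x, (hj _ (hin A' w' hw' x hxA') _ (hout A w hw x hxA)).symm⟩
  have heq : ∀ A, ∀ w ∈ T A, ∀ w' ∈ T A, w ≠ w' → (orPow H ι).Adj w w' := by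
    intro A w hw w' hw' hww
    obtain ⟨a1, a2⟩ := (hmem A w).1 hw
    obtain ⟨b1, b2⟩ := (hmem A w').1 hw'
    by_cases h1 : (fun x : {x // x ∈ A} => w x) = (fun x : {x // x ∈ A} => w' x)
    · have h2 : (fun x : {x // ¬ x ∈ A} => w x) ≠ (fun x : {x // ¬ x ∈ A} => w' x) := by
        intro h2
        apply hww
        funext x
        by_cases hx : x ∈ A
        · exact congrFun h1 ⟨x, hx⟩
        · exact congrFun h2 ⟨x, hx⟩
      obtain ⟨j, hjj⟩ := hR1 A a2 b2 h2
      exact ⟨j, hjj⟩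
    · obtain ⟨j, hjj⟩ := hQ1 A a1 b1 h1
      exact ⟨j, hjj⟩
  refine ⟨Finset.univ.biUnion T, ?_, ?_, ?_⟩
  · intro w hw w' hw' hww
    simp only [Finset.coe_biUnion, Finset.coe_univ, Set.mem_univ, Set.iUnion_true,
      Set.mem_iUnion, Finset.mem_coe] at hw hw'
    obtain ⟨A, hA⟩ := hw
    obtain ⟨A', hA'⟩ := hw'
    by_cases hAA : A = A'
    · subst hAA
      exact heq A w hA w' hA' hww
    · exact hne A A' hAA w hA w' hA'
  · intro w hw j
    simp only [Finset.mem_biUnion, Finset.mem_univ, true_and] at hw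
    obtain ⟨A, hA⟩ := hw
    by_cases hj' : j ∈ A
    · exact Or.inl (hin A w hA j hj')
    · exact Or.inr (hout A w hA j hj')
  · rw [Finset.card_biUnion]
    · have hcard : ∀ A, (T A).card = (Q A).card * (R A).card := by
        intro A
        rw [hT]
        simp only [Finset.card_map, Finset.card_product]
      have hsum := Finset.sum_pow_mul_eq_add_pow α β (Finset.univ : Finset ι)
      rw [Finset.powerset_univ, Finset.card_univ] at hsum
      rw [← hsum]
      push_cast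
      rw [Finset.mul_sum]
      apply Finset.sum_le_sum
      intro A _
      rw [hcard A]
      have e1 : α ^ A.card ≤ C * (Q A).card := by
        have := hQ3 A
        rwa [Fintype.card_coe] at this
      have e2 : β ^ (Fintype.card ι - A.card) ≤ C' * (R A).card := by
        have := hR3 A
        rwa [Fintype.card_subtype_compl, Fintype.card_coe] at this
      have e3 : 0 ≤ C * (Q A).card := le_trans (by positivity) e1
      calc α ^ A.card * β ^ (Fintype.card ι - A.card)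
          ≤ (C * (Q A).card) * (C' * (R A).card) := by
            apply mul_le_mul e1 e2 (by positivity) e3
        _ = C * C' * (((Q A).card * (R A).card : ℕ) : ℝ) := by
            push_cast
            ring
    · intro A _ A' _ hAA
      rw [Function.onFun, Finset.disjoint_left]
      intro w hw hw'
      exact (orPow H ι).irrefl (hne A A' hAA w hw w hw')

theorem LB_finset {W I : Type} {H : SimpleGraph W} (S : I → Set W) (α : I → ℝ)
    (hα : ∀ i, 0 ≤ α i) (hj : ∀ i i', i ≠ i' → ∀ x ∈ S i, ∀ y ∈ S i', H.Adj x y)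
    (h : ∀ i, LB H (S i) (α i)) (s : Finset I) :
    LB H (⋃ i ∈ s, S i) (∑ i ∈ s, α i) := by
  classical
  induction s using Finset.induction_on with
  | empty => simpa using LB_empty H
  | insert a s ha ih =>
    rw [Finset.sum_insert ha]
    have := LB_union (hα a) (Finset.sum_nonneg fun i _ => hα i) (h a) ih (by
      intro x hx y hy
      simp only [Set.mem_iUnion, exists_prop] at hy
      obtain ⟨i, hi, hy⟩ := hy
      exact hj a i (by rintro rfl; exact ha hi) x hx y hy)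
    refine this.mono ?_
    intro x hx
    simp only [Finset.mem_insert, Set.mem_iUnion, exists_prop]
    rcases hx with hx | hx
    · exact ⟨a, Or.inl rfl, hx⟩
    · simp only [Set.mem_iUnion, exists_prop] at hx
      obtain ⟨i, hi, hx⟩ := hx
      exact ⟨i, Or.inr hi, hx⟩

theorem LB_of_clique {W : Type} {H : SimpleGraph W} {S : Set W} {k : ℕ} (hk : 1 ≤ k)
    (Q : Finset (Fin k → W)) (hQ : Q.Nonempty)
    (hc : (orPow H (Fin k)).IsClique (Q : Set (Fin k → W))) (hS : ∀ w ∈ Q, ∀ j, w j ∈ S) :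
    LB H S ((Q.card : ℝ) ^ ((k : ℝ)⁻¹)) := by
  classical
  have hq1 : (1 : ℝ) ≤ Q.card := by exact_mod_cast hQ.card_pos
  refine ⟨Q.card, hq1, fun ι _ => ?_⟩
  obtain ⟨q0, hq0⟩ := hQ
  set w0 : W := q0 ⟨0, hk⟩ with hw0
  have hw0S : w0 ∈ S := hS q0 hq0 _
  set N := Fintype.card ι with hN
  set b := N / k with hb
  set r := N % k with hr
  have hNbr : b * k + r = N := by
    rw [hb, hr, mul_comm]
    exact Nat.div_add_mod N k
  have hcardE : Fintype.card ((Fin b × Fin k) ⊕ Fin r) = Fintype.card ι := by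
    simp only [Fintype.card_sum, Fintype.card_prod, Fintype.card_fin]
    rw [hNbr]
  have E : (Fin b × Fin k) ⊕ Fin r ≃ ι := Fintype.equivOfCardEq hcardE
  set Ψ : (Fin b → Fin k → W) → (ι → W) := fun f x =>
    Sum.elim (fun p : Fin b × Fin k => f p.1 p.2) (fun _ => w0) (E.symm x) with hΨ
  have hΨE : ∀ f i j, Ψ f (E (Sum.inl (i, j))) = f i j := by
    intro f i j
    rw [hΨ]
    simp
  have hinj : Function.Injective Ψ := by
    intro f g hfg
    funext i j
    rw [← hΨE f i j, ← hΨE g i j, hfg]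
  refine ⟨(Fintype.piFinset (fun _ : Fin b => Q)).map ⟨Ψ, hinj⟩, ?_, ?_, ?_⟩
  · intro w hw w' hw' hww
    simp only [Finset.coe_map, Function.Embedding.coeFn_mk, Set.mem_image, Finset.mem_coe,
      Fintype.mem_piFinset] at hw hw'
    obtain ⟨f, hf, rfl⟩ := hw
    obtain ⟨g, hg, rfl⟩ := hw'
    have hfg : f ≠ g := fun h => hww (by rw [h])
    obtain ⟨i, hi⟩ := Function.ne_iff.1 hfg
    obtain ⟨j, hj⟩ := hc (hf i) (hg i) hi
    refine ⟨E (Sum.inl (i, j)), ?_⟩
    rw [hΨE, hΨE]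
    exact hj
  · intro w hw x
    simp only [Finset.mem_map, Function.Embedding.coeFn_mk, Fintype.mem_piFinset] at hw
    obtain ⟨f, hf, rfl⟩ := hw
    rw [hΨ]
    simp only
    rcases E.symm x with p | p
    · exact hS _ (hf p.1) p.2
    · exact hw0S
  · rw [Finset.card_map, Fintype.card_piFinset]
    simp only [Finset.prod_const, Finset.card_univ, Fintype.card_fin]
    rw [← hNbr]
    have hkr : (k : ℝ) ≠ 0 := by
      have : (0 : ℝ) < k := by exact_mod_cast hk
      exact this.ne'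
    have hq0' : (0 : ℝ) ≤ Q.card := by linarith
    have hx1 : 1 ≤ (Q.card : ℝ) ^ ((k : ℝ)⁻¹) := Real.one_le_rpow hq1 (by positivity)
    have hxk : ((Q.card : ℝ) ^ ((k : ℝ)⁻¹)) ^ k = Q.card := by
      rw [← Real.rpow_natCast, ← Real.rpow_mul hq0', inv_mul_cancel₀ hkr, Real.rpow_one]
    have hrk : r ≤ k := (Nat.mod_lt N hk).le
    calc ((Q.card : ℝ) ^ ((k : ℝ)⁻¹)) ^ (b * k + r)
        = (((Q.card : ℝ) ^ ((k : ℝ)⁻¹)) ^ k) ^ b * ((Q.card : ℝ) ^ ((k : ℝ)⁻¹)) ^ r := by
          rw [pow_add, mul_comm b k, pow_mul]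
      _ ≤ (Q.card : ℝ) ^ b * ((Q.card : ℝ) ^ ((k : ℝ)⁻¹)) ^ k := by
          rw [hxk]
          apply mul_le_mul_of_nonneg_left _ (by positivity)
          have := pow_le_pow_right₀ hx1 hrk
          rwa [hxk] at this
      _ = Q.card * ((Q.card ^ b : ℕ) : ℝ) := by
          rw [hxk]
          push_cast
          ring

/-- Every clique of an OR power of `G` gives a bound for the clique numbers. -/
theorem card_le_num {V : Type} [Finite V] (G : SimpleGraph V) {ι : Type} [Fintype ι]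
    (Q : Finset (ι → V)) (hQ : (orPow G ι).IsClique (Q : Set (ι → V))) (t : ℕ)
    (ht : Fintype.card ι = t) : Q.card ≤ (orPow G (Fin t)).cliqueNum := by
  classical
  have e : Fin t ≃ ι := by
    apply Fintype.equivOfCardEq
    rw [Fintype.card_fin, ht]
  set f : (ι → V) → (Fin t → V) := fun w j => w (e j) with hf
  have hinj : Function.Injective f := by
    intro u v huv
    funext x
    have := congrFun huv (e.symm x)
    simpa [hf] using this
  have hcl : (orPow G (Fin t)).IsClique ((Q.map ⟨f, hinj⟩ : Finset (Fin t → V)) : Set _) := by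
    intro w hw w' hw' hww
    simp only [Finset.coe_map, Function.Embedding.coeFn_mk, Set.mem_image, Finset.mem_coe]
      at hw hw'
    obtain ⟨u, hu, rfl⟩ := hw
    obtain ⟨v, hv, rfl⟩ := hw'
    have huv : u ≠ v := fun h => hww (by rw [h])
    obtain ⟨j, hj⟩ := hQ hu hv huv
    refine ⟨e.symm j, ?_⟩
    simpa [hf] using hj
  have := hcl.card_le_cliqueNum
  rwa [Finset.card_map] at this

theorem tendsto_const_rpow_inv {C : ℝ} (hC : 0 < C) :
    Tendsto (fun t : ℕ => C ^ ((t : ℝ)⁻¹)) atTop (𝓝 1) := by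
  have h1 : Tendsto (fun t : ℕ => ((t : ℝ)⁻¹)) atTop (𝓝 0) := tendsto_inv_atTop_nhds_zero_nat
  have h2 := (Real.continuousAt_const_rpow (a := C) (b := 0) hC.ne').tendsto.comp h1
  rwa [Real.rpow_zero] at h2

/-- The main tool: cliques of size at least `α ^ N / C` in the `N L`-th powers give `α ≤ c ^ L`. -/
theorem cap_lower {V : Type} [Finite V] {G : SimpleGraph V} {c : ℝ} (hc : IsOrCap G c)
    (L : ℕ) (hL : 1 ≤ L) (α C : ℝ) (hα : 0 ≤ α) (hC : 1 ≤ C)
    (h : ∀ N : ℕ, α ^ N ≤ C * (orPow G (Fin (N * L))).cliqueNum) : α ≤ c ^ L := by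
  have hsub : Tendsto (fun N : ℕ => N * L) atTop atTop :=
    tendsto_id.atTop_mul_const' hL
  have h1 : Tendsto (fun N : ℕ =>
      (((orPow G (Fin (N * L))).cliqueNum : ℝ) ^ (((N * L : ℕ) : ℝ)⁻¹)) ^ L) atTop
      (𝓝 (c ^ L)) := (Tendsto.comp hc hsub).pow L
  have h2 : Tendsto (fun N : ℕ => C ^ ((N : ℝ)⁻¹) *
      (((orPow G (Fin (N * L))).cliqueNum : ℝ) ^ (((N * L : ℕ) : ℝ)⁻¹)) ^ L) atTop
      (𝓝 (1 * c ^ L)) := (tendsto_const_rpow_inv (by linarith)).mul h1
  rw [one_mul] at h2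
  refine ge_of_tendsto h2 ?_
  filter_upwards [eventually_ge_atTop 1] with N hN
  set ω : ℝ := ((orPow G (Fin (N * L))).cliqueNum : ℝ) with hω
  have hω0 : 0 ≤ ω := by positivity
  have hNr : (N : ℝ) ≠ 0 := by
    have : (0 : ℝ) < N := by exact_mod_cast hN
    exact this.ne'
  have hLr : (L : ℝ) ≠ 0 := by
    have : (0 : ℝ) < L := by exact_mod_cast hL
    exact this.ne'
  have e1 : (ω ^ (((N * L : ℕ) : ℝ)⁻¹)) ^ L = ω ^ ((N : ℝ)⁻¹) := by
    rw [← Real.rpow_natCast, ← Real.rpow_mul hω0]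
    congr 1
    push_cast
    field_simp
  rw [e1, ← Real.mul_rpow (by linarith) hω0]
  have e2 : α = (α ^ N) ^ ((N : ℝ)⁻¹) := by
    rw [← Real.rpow_natCast, ← Real.rpow_mul hα, mul_inv_cancel₀ hNr, Real.rpow_one]
  rw [e2]
  exact Real.rpow_le_rpow (by positivity) (h N) (by positivity)

end Pool.Agent.Lib.MP_5c786f_co
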