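import Pool.Agent.Lib.MP_5c786f_co.Lift

/-!
# The lifting construction, second part (MP_5c786f_co)
-/

namespace Pool.Agent.Lib.MP_5c786f_co

open Filter Topology

theorem lift_LB {W I D X : Type} [Fintype I] [AddCommGroup I] [Nonempty I] [Fintype D]
    [AddCommGroup D] [Fintype X] [DecidableEq I] [DecidableEq X]
    (H : SimpleGraph W) (k : ℕ) (hk : 1 ≤ k) (S : I → Set W)
    (hS : ∀ i i', i ≠ i' → ∀ x ∈ S i, ∀ y ∈ S i', H.Adj x y)
    (Q : I → Finset (Fin k → W)) (hQne : ∀ i, (Q i).Nonempty)
    (hQc : ∀ i, (orPow H (Fin k)).IsClique (Q i : Set (Fin k → W)))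
    (hQS : ∀ i, ∀ w ∈ Q i, ∀ j, w j ∈ S i)
    (em : I → (Fin k → W) → D) (hem : ∀ i, Set.InjOn (em i) (Q i))
    (hX : Fintype.card I * Fintype.card D ≤ Fintype.card X) :
    LB (orPow (mycielskian H 2) (Pos I X)) Set.univ
      ((∑ i, ((Q i).card : ℝ) ^ ((k : ℝ)⁻¹)) ^ (Fintype.card (Pos I X)) + 1) := by
  classical
  choose i0 e he1 he2 using
    (fun σ : Pos I X → I => exists_places (D := D) hX (fun x => σ (hash σ, x)))
  set g : (Pos I X → I) → (Pos I X → Fin k → W) → D := fun σ w =>
    ∑ t, em (i0 σ) (w (hash σ, e σ t)) with hg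
  set col : (Pos I X → I) → (Pos I X → Fin k → W) → Pos I X := fun σ w =>
    (hash σ, e σ (g σ w)) with hcol
  have key : ∀ (σ : Pos I X → I) (w w' : Pos I X → Fin k → W), (∀ p, w p ∈ Q (σ p)) →
      (∀ p, w' p ∈ Q (σ p)) → w ≠ w' → ∃ p b, H.Adj (w p b) (w' p b) ∧
        ¬ (p = col σ w ∧ p = col σ w') := by
    intro σ w w' hw hw' hne
    by_cases hcc : col σ w = col σ w'
    · have hg' : g σ w = g σ w' := by
        have := congrArg Prod.snd hcc
        exact he1 σ this
      have : ∃ p, p ≠ col σ w ∧ w p ≠ w' p := by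
        by_contra hcon
        push Not at hcon
        have hterm : em (i0 σ) (w (hash σ, e σ (g σ w))) =
            em (i0 σ) (w' (hash σ, e σ (g σ w))) := by
          have h1 : ∑ t, em (i0 σ) (w (hash σ, e σ t)) = ∑ t, em (i0 σ) (w' (hash σ, e σ t)) := hg'
          rw [← Finset.add_sum_erase _ _ (Finset.mem_univ (g σ w)),
            ← Finset.add_sum_erase _ (fun t => em (i0 σ) (w' (hash σ, e σ t)))
              (Finset.mem_univ (g σ w))] at h1
          have h2 : ∑ t ∈ Finset.univ.erase (g σ w), em (i0 σ) (w (hash σ, e σ t))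
              = ∑ t ∈ Finset.univ.erase (g σ w), em (i0 σ) (w' (hash σ, e σ t)) := by
            apply Finset.sum_congr rfl
            intro t ht
            have htne : t ≠ g σ w := Finset.ne_of_mem_erase ht
            rw [hcon (hash σ, e σ t) (by
              intro hc
              exact htne (he1 σ (congrArg Prod.snd hc)))]
          rw [h2] at h1
          exact add_right_cancel h1
        have hst : σ (hash σ, e σ (g σ w)) = i0 σ := he2 σ (g σ w)
        have h3 : w (col σ w) = w' (col σ w) := by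
          apply hem (i0 σ) _ _ hterm
          · have := hw (hash σ, e σ (g σ w))
            rwa [hst] at this
          · have := hw' (hash σ, e σ (g σ w))
            rwa [hst] at this
        apply hne
        funext p
        by_cases hp : p = col σ w
        · rw [hp]
          exact h3
        · exact hcon p hp
      obtain ⟨p, hp, hpw⟩ := this
      obtain ⟨b, hb⟩ := hQc (σ p) (hw p) (hw' p) hpw
      exact ⟨p, b, hb, fun h => hp h.1⟩
    · obtain ⟨p, hp⟩ := Function.ne_iff.1 hne
      obtain ⟨b, hb⟩ := hQc (σ p) (hw p) (hw' p) hp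
      exact ⟨p, b, hb, fun h => hcc (h.1.symm.trans h.2)⟩
  set Φ : (Pos I X → I) → (Pos I X → Fin k → W) → (Fin k → Pos I X → Option (W × Fin 2)) :=
    fun σ w b p => rz (p = col σ w) (w p b) with hΦ
  have hΦinj : ∀ σ, Function.Injective (Φ σ) := by
    intro σ w w' h
    funext p b
    have h1 := congrFun (congrFun h b) p
    exact rz_inj h1
  set S' : (Pos I X → I) → Set (Pos I X → Option (W × Fin 2)) := fun σ =>
    {x | (∀ p, ∃ u ∈ S (σ p), x p = lo u ∨ (x p = hi u ∧ p.1 = hash σ)) ∧
      ∃ p u, x p = hi u} with hS'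
  have hrow : ∀ σ w, (∀ p, w p ∈ Q (σ p)) → ∀ b, Φ σ w b ∈ S' σ := by
    intro σ w hw b
    refine ⟨fun p => ⟨w p b, hQS _ _ (hw p) b, ?_⟩, ⟨col σ w, w (col σ w) b, ?_⟩⟩
    · by_cases hp : p = col σ w
      · right
        refine ⟨?_, by rw [hp]⟩
        change rz (p = col σ w) (w p b) = hi (w p b)
        unfold rz
        rw [if_pos hp]
      · left
        change rz (p = col σ w) (w p b) = lo (w p b)
        unfold rz
        rw [if_neg hp]
    · change rz (col σ w = col σ w) (w (col σ w) b) = hi (w (col σ w) b)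
      unfold rz
      rw [if_pos rfl]
  have hjoin : ∀ σ σ', σ ≠ σ' → ∀ x ∈ S' σ, ∀ y ∈ S' σ',
      (orPow (mycielskian H 2) (Pos I X)).Adj x y := by
    intro σ σ' hne x hx y hy
    have : ∃ p : Pos I X, σ p ≠ σ' p ∧ ¬ (p.1 = hash σ ∧ p.1 = hash σ') := by
      by_cases hh : hash σ = hash σ'
      · obtain ⟨p, h1, h2⟩ := hash_spec hne hh
        exact ⟨p, h1, fun h => h2 h.1⟩
      · obtain ⟨p, hp⟩ := Function.ne_iff.1 hne
        exact ⟨p, hp, fun h => hh (h.1.symm.trans h.2)⟩
    obtain ⟨p, hp, hpn⟩ := this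
    refine ⟨p, ?_⟩
    obtain ⟨u, hu, hxu⟩ := hx.1 p
    obtain ⟨v, hv, hyv⟩ := hy.1 p
    have huv : H.Adj u v := hS _ _ hp u hu v hv
    rcases hxu with hxu | ⟨hxu, hx2⟩
    · rcases hyv with hyv | ⟨hyv, hy2⟩
      · rw [hxu, hyv]
        exact adj_lo_lo huv
      · rw [hxu, hyv]
        exact adj_lo_hi huv
    · rcases hyv with hyv | ⟨hyv, hy2⟩
      · rw [hxu, hyv]
        exact adj_hi_lo huv
      · exact absurd ⟨hx2, hy2⟩ hpn
  -- the family, with one more member for the constant word `z`
  set S'' : Option (Pos I X → I) → Set (Pos I X → Option (W × Fin 2)) := fun o =>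
    match o with
    | none => {fun _ => none}
    | some σ => S' σ with hS''
  set α : Option (Pos I X → I) → ℝ := fun o =>
    match o with
    | none => 1
    | some σ => ∏ p, ((Q (σ p)).card : ℝ) ^ ((k : ℝ)⁻¹) with hαdef
  have hα0 : ∀ o, 0 ≤ α o := by
    intro o
    cases o with
    | none => exact zero_le_one
    | some σ => exact Finset.prod_nonneg fun p _ => by positivity
  have hz : ∀ σ, ∀ x ∈ S' σ, (orPow (mycielskian H 2) (Pos I X)).Adj x (fun _ => none) := by
    intro σ x hx
    obtain ⟨p, u, hpu⟩ := hx.2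
    refine ⟨p, ?_⟩
    rw [hpu]
    exact adj_hi_z u
  have hjoin'' : ∀ o o', o ≠ o' → ∀ x ∈ S'' o, ∀ y ∈ S'' o',
      (orPow (mycielskian H 2) (Pos I X)).Adj x y := by
    intro o o' hne x hx y hy
    cases o with
    | none =>
      cases o' with
      | none => exact absurd rfl hne
      | some σ' =>
        have hx' : x = fun _ => none := hx
        rw [hx']
        exact (hz σ' y hy).symm
    | some σ =>
      cases o' with
      | none =>
        have hy' : y = fun _ => none := hy
        rw [hy']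
        exact hz σ x hx
      | some σ' =>
        exact hjoin σ σ' (fun h => hne (by rw [h])) x hx y hy
  have hLB : ∀ o, LB (orPow (mycielskian H 2) (Pos I X)) (S'' o) (α o) := by
    intro o
    cases o with
    | none =>
      have h1 := LB_of_clique (H := orPow (mycielskian H 2) (Pos I X)) (S := S'' none)
        (k := 1) (le_refl 1) {fun _ _ => none} (Finset.singleton_nonempty _) (by simp)
        (by
          intro w hw j
          rw [Finset.mem_singleton] at hw
          rw [hw]
          rfl)
      simpa using h1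
    | some σ =>
      set P : Finset (Fin k → Pos I X → Option (W × Fin 2)) :=
        (Fintype.piFinset (fun p => Q (σ p))).map ⟨Φ σ, hΦinj σ⟩ with hP
      have hmemP : ∀ x, x ∈ P ↔ ∃ w, (∀ p, w p ∈ Q (σ p)) ∧ Φ σ w = x := by
        intro x
        rw [hP]
        simp only [Finset.mem_map, Function.Embedding.coeFn_mk, Fintype.mem_piFinset]
      have h1 := LB_of_clique (H := orPow (mycielskian H 2) (Pos I X)) (S := S'' (some σ))
        (k := k) hk P (by
          choose w hw using hQne
          exact ⟨Φ σ (fun p => w (σ p)), (hmemP _).2 ⟨_, fun p => hw (σ p), rfl⟩⟩)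
        (by
          intro x hx y hy hxy
          obtain ⟨w, hw, rfl⟩ := (hmemP _).1 hx
          obtain ⟨w', hw', rfl⟩ := (hmemP _).1 hy
          have hww : w ≠ w' := fun h => hxy (by rw [h])
          obtain ⟨p, b, hadj, hnb⟩ := key σ w w' hw hw' hww
          exact ⟨b, p, adj_rz hadj hnb⟩)
        (by
          intro x hx j
          obtain ⟨w, hw, rfl⟩ := (hmemP _).1 hx
          exact hrow σ w hw j)
      have h2 : ((P.card : ℝ)) ^ ((k : ℝ)⁻¹) = α (some σ) := by
        rw [hP, Finset.card_map, Fintype.card_piFinset]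
        push_cast
        rw [← Real.finsetProd_rpow _ _ (fun p _ => by positivity)]
      rw [h2] at h1
      exact h1
  have hfin := LB_finset S'' α hα0 hjoin'' hLB Finset.univ
  have hsum : ∑ o, α o = (∑ i, ((Q i).card : ℝ) ^ ((k : ℝ)⁻¹)) ^ (Fintype.card (Pos I X)) + 1 := by
    rw [Fintype.sum_option, add_comm]
    congr 1
    have h3 := Finset.prod_univ_sum (fun _ : Pos I X => (Finset.univ : Finset I))
      (fun _ i => ((Q i).card : ℝ) ^ ((k : ℝ)⁻¹))
    rw [Fintype.piFinset_univ, Finset.prod_const, Finset.card_univ] at h3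
    exact h3.symm
  rw [hsum] at hfin
  exact hfin.mono (Set.subset_univ _)

end Pool.Agent.Lib.MP_5c786f_co
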