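import Pool.Agent.Lib.MP_5c786f_co.Lim

/-!
# The join of pentagons and a complete graph (MP_5c786f_co)
-/

namespace Pool.Agent.Lib.MP_5c786f_co

open Filter Topology

namespace Pent

/-- the two parameters of the umbrella. -/
noncomputable def A : ℝ := √(√5 / 25)

noncomputable def B : ℝ := √(2 * (5 - √5) / 25)

theorem s5 : √5 ^ 2 = (5 : ℝ) := Real.sq_sqrt (by norm_num)

theorem s5' : √5 * √5 = (5 : ℝ) := Real.mul_self_sqrt (by norm_num)

theorem s5lt : √5 < (5 : ℝ) := by
  nlinarith [s5, Real.sqrt_nonneg (5 : ℝ)]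

theorem s5pos : (0 : ℝ) < √5 := Real.sqrt_pos.2 (by norm_num)

theorem A2 : A ^ 2 = √5 / 25 := Real.sq_sqrt (by positivity)

theorem B2 : B ^ 2 = 2 * (5 - √5) / 25 := Real.sq_sqrt (by
  have := s5lt
  apply div_nonneg _ (by norm_num)
  linarith)

/-- the umbrella as a function on `ℤ/5`. -/
noncomputable def F (j : ZMod 5) : ℝ :=
  if j = 0 then A + B else if j = 1 ∨ j = 4 then A - B * (√5 + 1) / 4 else A + B * (√5 - 1) / 4

theorem F0 : F 0 = A + B := by simp [F]

theorem F1 : F 1 = A - B * (√5 + 1) / 4 := by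
  unfold F
  rw [if_neg (by decide), if_pos (Or.inl rfl)]

theorem F4 : F 4 = A - B * (√5 + 1) / 4 := by
  unfold F
  rw [if_neg (by decide), if_pos (Or.inr rfl)]

theorem F2 : F 2 = A + B * (√5 - 1) / 4 := by
  unfold F
  rw [if_neg (by decide), if_neg (by decide)]

theorem F3 : F 3 = A + B * (√5 - 1) / 4 := by
  unfold F
  rw [if_neg (by decide), if_neg (by decide)]

theorem sum5 (f : ZMod 5 → ℝ) : ∑ j, f j = f 0 + f 1 + f 2 + f 3 + f 4 :=
  Fin.sum_univ_five f

theorem sumF : ∑ j, F j = 5 * A := by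
  rw [sum5, F0, F1, F2, F3, F4]
  ring

theorem sumF2 : ∑ j, F j ^ 2 = 1 := by
  rw [sum5, F0, F1, F2, F3, F4]
  linear_combination 5 * A2 + (1 + (√5 ^ 2 + 1) / 4) * B2 + ((5 - √5) / 50) * s5

theorem sumFF : ∑ j, F j * F (j + 1) = 0 := by
  rw [sum5]
  have e0 : (0 : ZMod 5) + 1 = 1 := by decide
  have e1 : (1 : ZMod 5) + 1 = 2 := by decide
  have e2 : (2 : ZMod 5) + 1 = 3 := by decide
  have e3 : (3 : ZMod 5) + 1 = 4 := by decide
  have e4 : (4 : ZMod 5) + 1 = 0 := by decide
  rw [e0, e1, e2, e3, e4, F0, F1, F2, F3, F4]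
  linear_combination 5 * A2 + (-(√5 + 1) / 2 - (√5 ^ 2 - 1) / 8 + (√5 - 1) ^ 2 / 16) * B2
    + ((5 + √5) / 200) * s5

theorem shift (i : ZMod 5) (f : ZMod 5 → ℝ) : ∑ j, f (j - i) = ∑ j, f j :=
  Equiv.sum_comp (Equiv.subRight i) f

theorem sumF_shift (i : ZMod 5) : ∑ j, F (j - i) = 5 * A := by
  rw [shift i F, sumF]

theorem sumF2_shift (i : ZMod 5) : ∑ j, F (j - i) ^ 2 = 1 := by
  rw [shift i (fun j => F j ^ 2), sumF2]

theorem ort_shift (i i' : ZMod 5) (h : i = i' + 1 ∨ i' = i + 1) :
    ∑ j, F (j - i) * F (j - i') = 0 := by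
  rcases h with h | h
  · subst h
    have := shift (i' + 1) (fun j => F j * F (j + 1))
    rw [sumFF] at this
    rw [← this]
    apply Finset.sum_congr rfl
    intro j _
    have e : j - i' = j - (i' + 1) + 1 := by ring
    rw [e]
  · subst h
    have := shift (i + 1) (fun j => F j * F (j + 1))
    rw [sumFF] at this
    rw [← this]
    apply Finset.sum_congr rfl
    intro j _
    have e : j - i = j - (i + 1) + 1 := by ring
    rw [e, mul_comm]

variable (a n : ℕ)

noncomputable def θ : ℝ := a * √5 + n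

/-- the orthonormal representation. -/
noncomputable def vec : (Fin a × ZMod 5 ⊕ Fin n) → (Fin a × ZMod 5 ⊕ Fin n) → ℝ
  | Sum.inl p, Sum.inl q => if p.1 = q.1 then F (q.2 - p.2) else 0
  | Sum.inl _, Sum.inr _ => 0
  | Sum.inr _, Sum.inl _ => 0
  | Sum.inr i, Sum.inr j => if i = j then 1 else 0

/-- the handle. -/
noncomputable def han : (Fin a × ZMod 5 ⊕ Fin n) → ℝ
  | Sum.inl _ => √(1 / (√5 * θ a n))
  | Sum.inr _ => √(1 / θ a n)

variable {a n}

theorem sum_inl_inl (p p' : Fin a × ZMod 5) :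
    ∑ x, vec a n (Sum.inl p) x * vec a n (Sum.inl p') x =
      if p.1 = p'.1 then ∑ j, F (j - p.2) * F (j - p'.2) else 0 := by
  rw [Fintype.sum_sum_type, Fintype.sum_prod_type]
  have h2 : ∑ x : Fin n, vec a n (Sum.inl p) (Sum.inr x) * vec a n (Sum.inl p') (Sum.inr x)
      = 0 := by
    apply Finset.sum_eq_zero
    intro x _
    simp [vec]
  rw [h2, add_zero]
  rw [Finset.sum_eq_single_of_mem p.1 (Finset.mem_univ _)]
  · by_cases h : p.1 = p'.1
    · rw [if_pos h]
      apply Finset.sum_congr rfl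
      intro j _
      simp [vec, h]
    · rw [if_neg h]
      apply Finset.sum_eq_zero
      intro j _
      have h' : ¬ p'.1 = p.1 := fun e => h e.symm
      simp [vec, h']
  · intro b _ hb
    apply Finset.sum_eq_zero
    intro j _
    have h' : ¬ p.1 = b := fun e => hb e.symm
    simp [vec, h']

theorem vec_ort (x y : Fin a × ZMod 5 ⊕ Fin n) (h : (pentJoin a n).Adj x y) :
    ∑ s, vec a n x s * vec a n y s = 0 := by
  rcases x with p | i
  · rcases y with q | j
    · rw [sum_inl_inl]
      have h' : p.1 ≠ q.1 ∨ p.2 = q.2 + 1 ∨ q.2 = p.2 + 1 := h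
      by_cases hpq : p.1 = q.1
      · rw [if_pos hpq]
        apply ort_shift
        rcases h' with h' | h'
        · exact absurd hpq h'
        · exact h'
      · rw [if_neg hpq]
    · apply Finset.sum_eq_zero
      rintro (s | s) _ <;> simp [vec]
  · rcases y with q | j
    · apply Finset.sum_eq_zero
      rintro (s | s) _ <;> simp [vec]
    · have h' : i ≠ j := h
      apply Finset.sum_eq_zero
      rintro (s | s) _
      · simp [vec]
      · by_cases hi : i = s
        · have hj : ¬ j = s := fun e => h' (hi.trans e.symm)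
          simp [vec, hj]
        · simp [vec, hi]

theorem vec_norm (x : Fin a × ZMod 5 ⊕ Fin n) : ∑ s, vec a n x s ^ 2 = 1 := by
  rcases x with p | i
  · have h := sum_inl_inl (n := n) p p
    rw [if_pos rfl] at h
    have h1 : ∑ s, vec a n (Sum.inl p) s ^ 2 =
        ∑ s, vec a n (Sum.inl p) s * vec a n (Sum.inl p) s :=
      Finset.sum_congr rfl fun s _ => pow_two _
    rw [h1, h, ← sumF2_shift p.2]
    exact Finset.sum_congr rfl fun s _ => (pow_two _).symm
  · rw [Fintype.sum_sum_type]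
    simp [vec]

theorem θ_pos (ha : 1 ≤ a) : 0 < θ a n := by
  have h1 : (1 : ℝ) ≤ a := by exact_mod_cast ha
  have h2 := s5pos
  have h3 : (0 : ℝ) ≤ n := Nat.cast_nonneg n
  unfold θ
  nlinarith

theorem han_norm (ha : 1 ≤ a) : ∑ s, han a n s ^ 2 = 1 := by
  have hθ := θ_pos (n := n) ha
  have h5 := s5pos
  rw [Fintype.sum_sum_type]
  simp only [han]
  rw [Real.sq_sqrt (by positivity), Real.sq_sqrt (by positivity)]
  simp only [Finset.sum_const, Finset.card_univ, Fintype.card_prod, Fintype.card_fin, ZMod.card,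
    nsmul_eq_mul]
  push_cast
  have h1 : (5 : ℝ) / √5 = √5 := by
    rw [div_eq_iff h5.ne']
    exact s5'.symm
  have h2 : (a : ℝ) * 5 * (1 / (√5 * θ a n)) + n * (1 / θ a n) =
      (a * (5 / √5) + n) / θ a n := by
    field_simp
  rw [h2, h1]
  exact div_self hθ.ne'

theorem han_vec (ha : 1 ≤ a) (x : Fin a × ZMod 5 ⊕ Fin n) :
    1 ≤ θ a n * (∑ s, han a n s * vec a n x s) ^ 2 := by
  have hθ := θ_pos (n := n) ha
  have h5 := s5pos
  rcases x with p | i
  · have h1 : ∑ s, han a n s * vec a n (Sum.inl p) s = √(1 / (√5 * θ a n)) * (5 * A) := by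
      rw [Fintype.sum_sum_type, Fintype.sum_prod_type]
      have h2 : ∑ x : Fin n, han a n (Sum.inr x) * vec a n (Sum.inl p) (Sum.inr x) = 0 := by
        apply Finset.sum_eq_zero
        intro x _
        simp [vec]
      rw [h2, add_zero, Finset.sum_eq_single_of_mem p.1 (Finset.mem_univ _)]
      · rw [← sumF_shift p.2, Finset.mul_sum]
        apply Finset.sum_congr rfl
        intro j _
        simp [vec, han]
      · intro b _ hb
        apply Finset.sum_eq_zero
        intro j _
        have h' : ¬ p.1 = b := fun e => hb e.symm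
        simp [vec, h']
    rw [h1, mul_pow, Real.sq_sqrt (by positivity), mul_pow, A2]
    apply le_of_eq
    field_simp
    norm_num
  · have h1 : ∑ s, han a n s * vec a n (Sum.inr i) s = √(1 / θ a n) := by
      rw [Fintype.sum_sum_type]
      simp [vec, han]
    rw [h1, Real.sq_sqrt (by positivity)]
    apply le_of_eq
    field_simp

theorem upper (ha : 1 ≤ a) (t : ℕ) :
    ((orPow (pentJoin a n) (Fin t)).cliqueNum : ℝ) ≤ θ a n ^ t := by
  obtain ⟨P, hP⟩ := (orPow (pentJoin a n) (Fin t)).exists_isNClique_cliqueNum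
  rw [← hP.card_eq]
  exact lovasz_bound (pentJoin a n) (vec a n) (han a n) (θ a n) vec_ort vec_norm (han_norm ha)
    (han_vec ha) (θ_pos ha).le t P hP.isClique

theorem pow_form (a n t : ℕ) (ha : 1 ≤ a) (hn : 1 ≤ n) :
    ∃ x y : ℕ, 1 ≤ y ∧ θ a n ^ (t + 1) = x + y * √5 := by
  induction t with
  | zero =>
    refine ⟨n, a, ha, ?_⟩
    unfold θ
    ring
  | succ t ih =>
    obtain ⟨x, y, hy, h⟩ := ih
    refine ⟨x * n + 5 * y * a, x * a + y * n, ?_, ?_⟩
    · have : 1 ≤ y * n := Nat.mul_pos hy hn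
      omega
    · rw [pow_succ, h]
      unfold θ
      push_cast
      linear_combination (y * a : ℝ) * s5

theorem not_nat (ha : 1 ≤ a) (hn : 1 ≤ n) (t : ℕ) (ht : 1 ≤ t) (m : ℕ) :
    (m : ℝ) ≠ θ a n ^ t := by
  obtain ⟨t, rfl⟩ : ∃ t', t = t' + 1 := ⟨t - 1, by omega⟩
  obtain ⟨x, y, hy, h⟩ := pow_form a n t ha hn
  intro hm
  rw [h] at hm
  have hirr : Irrational (√5) := by
    have := Nat.Prime.irrational_sqrt (p := 5) (by norm_num)
    simpa using this
  have hy0 : (y : ℝ) ≠ 0 := by
    have : (0 : ℝ) < y := by exact_mod_cast hy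
    exact this.ne'
  apply hirr
  refine ⟨((m : ℚ) - x) / y, ?_⟩
  push_cast
  rw [div_eq_iff hy0]
  linarith

/-- the parts of the join. -/
def part (a n : ℕ) : Fin a ⊕ Fin n → Set (Fin a × ZMod 5 ⊕ Fin n)
  | Sum.inl b => {x | ∃ i, x = Sum.inl (b, i)}
  | Sum.inr l => {Sum.inr l}

theorem part_adj (i i' : Fin a ⊕ Fin n) (h : i ≠ i') (x) (hx : x ∈ part a n i) (y)
    (hy : y ∈ part a n i') : (pentJoin a n).Adj x y := by
  rcases i with b | l
  · obtain ⟨u, rfl⟩ := hx
    rcases i' with b' | l'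
    · obtain ⟨u', rfl⟩ := hy
      exact Or.inl fun e => h (by rw [show b = b' from e])
    · rw [show y = Sum.inr l' from hy]
      trivial
  · rw [show x = Sum.inr l from hx]
    rcases i' with b' | l'
    · obtain ⟨u', rfl⟩ := hy
      trivial
    · rw [show y = Sum.inr l' from hy]
      intro e
      exact h (by rw [e])

/-- the words of a clique of `C_5^{∨2}`. -/
def pw (b : Fin a) (i : ZMod 5) : Fin 2 → (Fin a × ZMod 5 ⊕ Fin n) :=
  fun j => if j = 0 then Sum.inl (b, i) else Sum.inl (b, 2 * i)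

theorem pw_inj (b : Fin a) : Function.Injective (pw (n := n) b) := by
  intro i i' h
  have := congrFun h 0
  simp only [pw, if_true, Sum.inl.injEq, Prod.mk.injEq, true_and] at this
  exact this

theorem five_cases : ∀ i i' : ZMod 5, i ≠ i' →
    (i = i' + 1 ∨ i' = i + 1) ∨ (2 * i = 2 * i' + 1 ∨ 2 * i' = 2 * i + 1) := by decide

theorem LB_part (i : Fin a ⊕ Fin n) :
    LB (pentJoin a n) (part a n i) (Sum.elim (fun _ => √5) (fun _ => (1 : ℝ)) i) := by
  classical
  rcases i with b | l
  · have h := LB_of_clique (H := pentJoin a n) (S := part a n (Sum.inl b)) (k := 2)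
      (by norm_num) ((Finset.univ : Finset (ZMod 5)).map ⟨pw b, pw_inj b⟩)
      (by simp) (by
        intro w hw w' hw' hww
        simp only [Finset.coe_map, Function.Embedding.coeFn_mk, Set.mem_image, Finset.mem_coe,
          Finset.mem_univ, true_and] at hw hw'
        obtain ⟨i, rfl⟩ := hw
        obtain ⟨i', rfl⟩ := hw'
        have hii : i ≠ i' := fun e => hww (by rw [e])
        rcases five_cases i i' hii with h | h
        · exact ⟨0, Or.inr h⟩
        · refine ⟨1, ?_⟩
          have : (pentJoin a n).Adj (Sum.inl (b, 2 * i)) (Sum.inl (b, 2 * i')) := Or.inr h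
          simpa [pw] using this) (by
        intro w hw j
        simp only [Finset.mem_map, Function.Embedding.coeFn_mk, Finset.mem_univ, true_and] at hw
        obtain ⟨i, rfl⟩ := hw
        by_cases hj : j = 0
        · exact ⟨i, by simp [pw, hj]⟩
        · exact ⟨2 * i, by simp [pw, hj]⟩)
    rw [Finset.card_map, Finset.card_univ, ZMod.card] at h
    have e : ((5 : ℕ) : ℝ) ^ (((2 : ℕ) : ℝ)⁻¹) = √5 := by
      rw [Real.sqrt_eq_rpow]
      norm_num
    rw [e] at h
    exact h
  · have h := LB_of_clique (H := pentJoin a n) (S := part a n (Sum.inr l)) (k := 1)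
      (le_refl 1) {fun _ => Sum.inr l} (Finset.singleton_nonempty _) (by simp) (by
        intro w hw j
        rw [Finset.mem_singleton] at hw
        rw [hw]
        rfl)
    simpa using h

theorem sum_parts : ∑ i : Fin a ⊕ Fin n, Sum.elim (fun _ => √5) (fun _ => (1 : ℝ)) i
    = θ a n := by
  rw [Fintype.sum_sum_type]
  simp [θ]

end Pent

end Pool.Agent.Lib.MP_5c786f_co
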