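import Pool.Agent.Lib.MP_5c786f_co.Pent

/-!
# The OR capacity of the join of pentagons and a complete graph (MP_5c786f_co)
-/

namespace Pool.Agent.Lib.MP_5c786f_co

open Filter Topology

/-- Shannon's lower bound as an inequality for the capacity. -/
theorem LB.le_cap {V : Type} [Finite V] {G : SimpleGraph V} {S : Set V} {α c : ℝ}
    (h : LB G S α) (hα : 0 ≤ α) (hc : IsOrCap G c) : α ≤ c := by
  obtain ⟨C, hC, h⟩ := h
  have := cap_lower hc 1 (le_refl 1) α C hα hC (by
    intro N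
    obtain ⟨Q, h1, _, h3⟩ := h (Fin N)
    rw [Fintype.card_fin] at h3
    refine h3.trans (mul_le_mul_of_nonneg_left ?_ (by linarith))
    exact_mod_cast card_le_num G Q h1 (N * 1) (by simp))
  simpa using this

theorem cap_le {V : Type} {G : SimpleGraph V} {c θ : ℝ} (hc : IsOrCap G c) (hθ : 0 ≤ θ)
    (h : ∀ t : ℕ, ((orPow G (Fin t)).cliqueNum : ℝ) ≤ θ ^ t) : c ≤ θ := by
  refine le_of_tendsto hc ?_
  filter_upwards [eventually_ge_atTop 1] with t ht
  have htr : (t : ℝ) ≠ 0 := by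
    have : (0 : ℝ) < t := by exact_mod_cast ht
    exact this.ne'
  have e2 : θ = (θ ^ t) ^ ((t : ℝ)⁻¹) := by
    rw [← Real.rpow_natCast, ← Real.rpow_mul hθ, mul_inv_cancel₀ htr, Real.rpow_one]
  calc ((orPow G (Fin t)).cliqueNum : ℝ) ^ ((t : ℝ)⁻¹) ≤ (θ ^ t) ^ ((t : ℝ)⁻¹) :=
        Real.rpow_le_rpow (by positivity) (h t) (by positivity)
    _ = θ := e2.symm

instance {a n : ℕ} : Finite (Fin a × ZMod 5 ⊕ Fin n) := inferInstance

theorem pent_cap (a n : ℕ) (ha : 1 ≤ a) : IsOrCap (pentJoin a n) (a * √5 + n) := by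
  haveI : Nonempty (Fin a × ZMod 5 ⊕ Fin n) := ⟨Sum.inl (⟨0, ha⟩, 0)⟩
  obtain ⟨c, hc⟩ := exists_orCap (pentJoin a n)
  have h1 : c ≤ Pent.θ a n := cap_le hc (Pent.θ_pos ha).le (Pent.upper ha)
  have h2 := LB_finset (Pent.part a n) _ (by
    rintro (b | l)
    · exact Real.sqrt_nonneg _
    · exact zero_le_one) Pent.part_adj Pent.LB_part Finset.univ
  rw [Pent.sum_parts] at h2
  have h3 := h2.le_cap (Pent.θ_pos ha).le hc
  have h4 : c = a * √5 + n := le_antisymm h1 h3
  rw [← h4]
  exact hc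

theorem pent_not_attained (a n : ℕ) (ha : 1 ≤ a) (hn : 1 ≤ n) (t : ℕ) (ht : 1 ≤ t) :
    ((orPow (pentJoin a n) (Fin t)).cliqueNum : ℝ) < (a * √5 + n) ^ t :=
  lt_of_le_of_ne (Pent.upper ha t) (Pent.not_nat ha hn t ht _)

/-- the cliques, as words of words of length one. -/
def pq (a n : ℕ) : Fin a ⊕ Fin n → Finset (Fin 2 → Fin 1 → (Fin a × ZMod 5 ⊕ Fin n))
  | Sum.inl b => (Finset.univ : Finset (ZMod 5)).map
      ⟨fun i j _ => Pent.pw (n := n) b i j, fun i i' h => Pent.pw_inj (n := n) b (by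
        funext j
        exact congrFun (congrFun h j) 0)⟩
  | Sum.inr l => {fun _ _ => Sum.inr l}

theorem pent_strict (a n : ℕ) (ha : 1 ≤ a) (c' : ℝ)
    (hc' : IsOrCap (mycielskian (pentJoin a n) 2) c') : a * √5 + n < c' := by
  classical
  haveI : Nonempty (Fin a ⊕ Fin n) := ⟨Sum.inl ⟨0, ha⟩⟩
  have h := join_gain (pentJoin a n) 1 2 5 (le_refl 1) (by norm_num)
    (fun i : Fin a ⊕ Fin n => {x : Fin 1 → _ | x 0 ∈ Pent.part a n i})
    (by
      intro i i' hii x hx y hy
      exact ⟨0, Pent.part_adj i i' hii (x 0) hx (y 0) hy⟩)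
    (pq a n)
    (by
      rintro (b | l)
      · exact ⟨_, Finset.mem_map.2 ⟨0, Finset.mem_univ _, rfl⟩⟩
      · exact Finset.singleton_nonempty _)
    (by
      rintro (b | l)
      · intro w hw w' hw' hww
        simp only [pq, Finset.coe_map, Function.Embedding.coeFn_mk, Set.mem_image,
          Finset.mem_coe, Finset.mem_univ, true_and] at hw hw'
        obtain ⟨i, rfl⟩ := hw
        obtain ⟨i', rfl⟩ := hw'
        have hii : i ≠ i' := fun e => hww (by rw [e])
        rcases Pent.five_cases i i' hii with h | h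
        · exact ⟨0, 0, Or.inr h⟩
        · refine ⟨1, 0, ?_⟩
          have : (pentJoin a n).Adj (Sum.inl (b, 2 * i)) (Sum.inl (b, 2 * i')) := Or.inr h
          simpa [Pent.pw] using this
      · simp [pq])
    (by
      rintro (b | l)
      · intro w hw j
        simp only [pq, Finset.mem_map, Function.Embedding.coeFn_mk, Finset.mem_univ,
          true_and] at hw
        obtain ⟨i, rfl⟩ := hw
        by_cases hj : j = 0
        · exact ⟨i, by simp [Pent.pw, hj]⟩
        · exact ⟨2 * i, by simp [Pent.pw, hj]⟩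
      · intro w hw j
        simp only [pq, Finset.mem_singleton] at hw
        rw [hw]
        rfl)
    (by
      rintro (b | l)
      · simp [pq, ZMod.card]
      · simp [pq])
    (a * √5 + n) c' (pent_cap a n ha) hc'
    (by
      rw [pow_one, Fintype.sum_sum_type]
      have e : ((5 : ℕ) : ℝ) ^ (((2 : ℕ) : ℝ)⁻¹) = √5 := by
        rw [Real.sqrt_eq_rpow]
        norm_num
      simp only [pq, Finset.card_map, Finset.card_univ, ZMod.card, Finset.card_singleton, e]
      simp)
  exact lt_of_gain hc'.nonneg h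

end Pool.Agent.Lib.MP_5c786f_co
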