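import Pool.Agent.Lib.MP_5c786f_co.Main

/-!
# From the lifting construction to the capacity of the Mycielskian (MP_5c786f_co)
-/

namespace Pool.Agent.Lib.MP_5c786f_co

open Filter Topology

theorem IsOrCap.nonneg {V : Type} {G : SimpleGraph V} {c : ℝ} (h : IsOrCap G c) : 0 ≤ c :=
  ge_of_tendsto' h fun t => by positivity

/-- letter by letter: the vertices of `M_r(G^{∨T})` as words over `M_r(G)`. -/
def spread {V : Type} {r : ℕ} {J : Type} : Option ((J → V) × Fin r) → J → Option (V × Fin r)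
  | none, _ => none
  | some p, j => some (p.1 j, p.2)

theorem spread_adj {V : Type} (G : SimpleGraph V) (r : ℕ) {J : Type} [Nonempty J]
    (x y : Option ((J → V) × Fin r)) (h : (mycielskian (orPow G J) r).Adj x y) :
    ∃ j, (mycielskian G r).Adj (spread x j) (spread y j) := by
  rcases x with _ | p
  · rcases y with _ | q
    · exact h.elim
    · exact ⟨Classical.arbitrary J, h⟩
  · rcases y with _ | q
    · exact ⟨Classical.arbitrary J, h⟩
    · obtain ⟨⟨j, hj⟩, h2⟩ := h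
      exact ⟨j, hj, h2⟩

/-- Cliques of the OR powers of `M(G^{∨T})^{∨P}` give cliques of the OR powers of `M(G)`. -/
theorem card_le_spread {V : Type} [Finite V] (G : SimpleGraph V) (r : ℕ) {J P : Type}
    [Nonempty J] [Fintype J] [Fintype P] (N : ℕ)
    (Q : Finset (Fin N → P → Option ((J → V) × Fin r)))
    (hQ : (orPow (orPow (mycielskian (orPow G J) r) P) (Fin N)).IsClique (Q : Set _)) :
    Q.card ≤ (orPow (mycielskian G r)
      (Fin (N * (Fintype.card P * Fintype.card J)))).cliqueNum := by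
  classical
  set f : (Fin N → P → Option ((J → V) × Fin r)) → (Fin N × P × J → Option (V × Fin r)) :=
    fun w a => spread (w a.1 a.2.1) a.2.2 with hf
  have hadj : ∀ x y, (orPow (orPow (mycielskian (orPow G J) r) P) (Fin N)).Adj x y →
      (orPow (mycielskian G r) (Fin N × P × J)).Adj (f x) (f y) := by
    rintro x y ⟨a, p, h⟩
    obtain ⟨j, hj⟩ := spread_adj G r _ _ h
    exact ⟨(a, p, j), hj⟩
  have hcard : (Q.image f).card = Q.card := by
    apply Finset.card_image_of_injOn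
    intro x hx y hy hxy
    by_contra hne
    have := hadj x y (hQ hx hy hne)
    rw [hxy] at this
    exact (orPow (mycielskian G r) (Fin N × P × J)).irrefl this
  rw [← hcard]
  apply card_le_num
  · intro u hu v hv huv
    simp only [Finset.coe_image, Set.mem_image, Finset.mem_coe] at hu hv
    obtain ⟨x, hx, rfl⟩ := hu
    obtain ⟨y, hy, rfl⟩ := hv
    exact hadj x y (hQ hx hy fun h => huv (by rw [h]))
  · simp [Fintype.card_prod]

theorem exists_injOn {A : Type} (Q : Finset A) (d : ℕ) [NeZero d] (h : Q.card ≤ d) :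
    ∃ f : A → ZMod d, Set.InjOn f (Q : Set A) := by
  classical
  have : Fintype.card Q ≤ Fintype.card (ZMod d) := by
    rw [Fintype.card_coe, ZMod.card]
    exact h
  obtain ⟨e⟩ := Function.Embedding.nonempty_of_card_le this
  refine ⟨fun a => if ha : a ∈ Q then e ⟨a, ha⟩ else 0, ?_⟩
  intro a ha b hb hab
  have ha' : a ∈ Q := ha
  have hb' : b ∈ Q := hb
  simp only [dif_pos ha', dif_pos hb'] at hab
  have := e.injective hab
  exact congrArg Subtype.val this

/-- The quantitative form of the theorem, for a common power `k`. -/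
theorem join_gain {V I : Type} [Finite V] [Fintype I] [Nonempty I] (G : SimpleGraph V)
    (T k d : ℕ) (hT : 1 ≤ T) (hk : 1 ≤ k) (S : I → Set (Fin T → V))
    (hS : ∀ i i', i ≠ i' → ∀ x ∈ S i, ∀ y ∈ S i', (orPow G (Fin T)).Adj x y)
    (Q : I → Finset (Fin k → Fin T → V)) (hQne : ∀ i, (Q i).Nonempty)
    (hQc : ∀ i, (orPow (orPow G (Fin T)) (Fin k)).IsClique (Q i : Set (Fin k → Fin T → V)))
    (hQS : ∀ i, ∀ w ∈ Q i, ∀ j, w j ∈ S i) (hd : ∀ i, (Q i).card ≤ d)
    (c c' : ℝ) (hc : IsOrCap G c) (hc' : IsOrCap (mycielskian G 2) c')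
    (hsum : c ^ T ≤ ∑ i, ((Q i).card : ℝ) ^ ((k : ℝ)⁻¹)) :
    ∃ n : ℕ, 1 ≤ n ∧ c ^ (n * T) + 1 ≤ c' ^ (n * T) := by
  classical
  obtain ⟨i0⟩ := ‹Nonempty I›
  have hd1 : 1 ≤ d := le_trans (hQne i0).card_pos (hd i0)
  have hm1 : 1 ≤ Fintype.card I := Fintype.card_pos_iff.2 ⟨i0⟩
  haveI : NeZero d := ⟨by omega⟩
  haveI : NeZero T := ⟨by omega⟩
  haveI : NeZero (Fintype.card I) := ⟨by omega⟩
  haveI : Nonempty I := ⟨i0⟩
  have eI : I ≃ ZMod (Fintype.card I) := Fintype.equivOfCardEq (ZMod.card _).symm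
  letI : AddCommGroup I := eI.addCommGroup
  choose em hem using fun i => exists_injOn (Q i) d (hd i)
  have hX : Fintype.card I * Fintype.card (ZMod d) ≤
      Fintype.card (Fin (Fintype.card I * d)) := by
    rw [ZMod.card, Fintype.card_fin]
  obtain ⟨C, hC, hLB⟩ := lift_LB (orPow G (Fin T)) k hk S hS Q hQne hQc hQS em hem hX
  set n := Fintype.card (Pos I (Fin (Fintype.card I * d))) with hn
  have hn1 : 1 ≤ n := by
    rw [hn]
    haveI : Nonempty (Fin (Fintype.card I * d)) := ⟨⟨0, Nat.mul_pos (by omega) (by omega)⟩⟩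
    exact Fintype.card_pos
  have hlow : ((∑ i, ((Q i).card : ℝ) ^ ((k : ℝ)⁻¹)) ^ n + 1) ≤ c' ^ (n * T) := by
    apply cap_lower hc' (n * T) (Nat.mul_pos hn1 hT) _ C _ hC
    · intro N
      obtain ⟨R, hR1, _, hR3⟩ := hLB (Fin N)
      rw [Fintype.card_fin] at hR3
      refine le_trans hR3 ?_
      apply mul_le_mul_of_nonneg_left _ (by linarith)
      have := card_le_spread G 2 N R hR1
      rw [← hn, Fintype.card_fin] at this
      exact_mod_cast this
    · exact add_nonneg (pow_nonneg (Finset.sum_nonneg fun i _ =>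
        Real.rpow_nonneg (Nat.cast_nonneg _) _) _) zero_le_one
  refine ⟨n, hn1, le_trans ?_ hlow⟩
  have hc0 := hc.nonneg
  have : c ^ (n * T) ≤ (∑ i, ((Q i).card : ℝ) ^ ((k : ℝ)⁻¹)) ^ n := by
    rw [mul_comm n T, pow_mul]
    exact pow_le_pow_left₀ (pow_nonneg hc0 _) hsum n
  linarith

/-- Powers of cliques. -/
theorem clique_pow {W : Type} {H : SimpleGraph W} {S : Set W} {k : ℕ} (b : ℕ)
    (Q : Finset (Fin k → W)) (hQ : Q.Nonempty)
    (hc : (orPow H (Fin k)).IsClique (Q : Set (Fin k → W))) (hS : ∀ w ∈ Q, ∀ j, w j ∈ S)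
    (K : ℕ) (hK : b * k = K) :
    ∃ R : Finset (Fin K → W), R.Nonempty ∧ (orPow H (Fin K)).IsClique (R : Set (Fin K → W)) ∧
      (∀ w ∈ R, ∀ j, w j ∈ S) ∧ R.card = Q.card ^ b := by
  classical
  have E : Fin b × Fin k ≃ Fin K := Fintype.equivOfCardEq (by simp [hK])
  set Ψ : (Fin b → Fin k → W) → (Fin K → W) := fun f x => f (E.symm x).1 (E.symm x).2 with hΨ
  have hΨE : ∀ f i j, Ψ f (E (i, j)) = f i j := by
    intro f i j
    rw [hΨ]
    simp
  have hinj : Function.Injective Ψ := by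
    intro f g hfg
    funext i j
    rw [← hΨE f i j, ← hΨE g i j, hfg]
  refine ⟨(Fintype.piFinset (fun _ : Fin b => Q)).map ⟨Ψ, hinj⟩, ?_, ?_, ?_, ?_⟩
  · obtain ⟨q, hq⟩ := hQ
    exact ⟨Ψ fun _ => q, Finset.mem_map.2 ⟨fun _ => q, by simpa using fun _ => hq, rfl⟩⟩
  · intro w hw w' hw' hww
    simp only [Finset.coe_map, Function.Embedding.coeFn_mk, Set.mem_image, Finset.mem_coe,
      Fintype.mem_piFinset] at hw hw'
    obtain ⟨f, hf, rfl⟩ := hw
    obtain ⟨g, hg, rfl⟩ := hw'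
    have hfg : f ≠ g := fun h => hww (by rw [h])
    obtain ⟨i, hi⟩ := Function.ne_iff.1 hfg
    obtain ⟨j, hj⟩ := hc (hf i) (hg i) hi
    refine ⟨E (i, j), ?_⟩
    rw [hΨE, hΨE]
    exact hj
  · intro w hw x
    simp only [Finset.mem_map, Function.Embedding.coeFn_mk, Fintype.mem_piFinset] at hw
    obtain ⟨f, hf, rfl⟩ := hw
    exact hS _ (hf _) _
  · rw [Finset.card_map, Fintype.card_piFinset]
    simp

/-- The theorem, in the general form with powers `k i`. -/
theorem join_gain' {V I : Type} [Finite V] [Fintype I] [Nonempty I] (G : SimpleGraph V)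
    (T : ℕ) (k : I → ℕ) (hT : 1 ≤ T) (hk : ∀ i, 1 ≤ k i) (S : I → Set (Fin T → V))
    (hS : ∀ i i', i ≠ i' → ∀ x ∈ S i, ∀ y ∈ S i', (orPow G (Fin T)).Adj x y)
    (Q : ∀ i, Finset (Fin (k i) → Fin T → V)) (hQne : ∀ i, (Q i).Nonempty)
    (hQc : ∀ i, (orPow (orPow G (Fin T)) (Fin (k i))).IsClique
      (Q i : Set (Fin (k i) → Fin T → V)))
    (hQS : ∀ i, ∀ w ∈ Q i, ∀ j, w j ∈ S i)
    (c c' : ℝ) (hc : IsOrCap G c) (hc' : IsOrCap (mycielskian G 2) c')
    (hsum : c ^ T ≤ ∑ i, ((Q i).card : ℝ) ^ ((k i : ℝ)⁻¹)) :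
    ∃ n : ℕ, 1 ≤ n ∧ c ^ (n * T) + 1 ≤ c' ^ (n * T) := by
  classical
  set K := ∏ i, k i with hKdef
  have hKpos0 : 0 < K := Finset.prod_pos fun i _ => hk i
  have hKpos : 1 ≤ K := hKpos0
  have hdiv : ∀ i, (K / k i) * k i = K := fun i =>
    Nat.div_mul_cancel (Finset.dvd_prod_of_mem k (Finset.mem_univ i))
  choose R hR1 hR2 hR3 hR4 using fun i =>
    clique_pow (K / k i) (Q i) (hQne i) (hQc i) (hQS i) K (hdiv i)
  refine join_gain G T K (Finset.univ.sup fun i => (R i).card) hT hKpos S hS R hR1 hR2 hR3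
    (fun i => Finset.le_sup (f := fun i => (R i).card) (Finset.mem_univ i)) c c' hc hc' ?_
  refine hsum.trans (le_of_eq ?_)
  apply Finset.sum_congr rfl
  intro i _
  rw [hR4 i]
  push_cast
  rw [← Real.rpow_natCast, ← Real.rpow_mul (by positivity)]
  congr 1
  have h1 : ((K / k i : ℕ) : ℝ) * (k i : ℝ) = K := by exact_mod_cast hdiv i
  have hki : (k i : ℝ) ≠ 0 := by
    have : (0 : ℝ) < k i := by exact_mod_cast hk i
    exact this.ne'
  have hKr : (K : ℝ) ≠ 0 := by
    have : (0 : ℝ) < K := by exact_mod_cast hKpos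
    exact this.ne'
  field_simp
  linarith

theorem lt_of_gain {c c' : ℝ} (hc' : 0 ≤ c') {T : ℕ}
    (h : ∃ n : ℕ, 1 ≤ n ∧ c ^ (n * T) + 1 ≤ c' ^ (n * T)) : c < c' := by
  obtain ⟨n, _, h⟩ := h
  by_contra hcon
  push Not at hcon
  have := pow_le_pow_left₀ hc' hcon (n * T)
  linarith

end Pool.Agent.Lib.MP_5c786f_co
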