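import Pool.Agent.Lib.MP_5c786f_co.Final

/-!
# The generalized Mycielskian `M_3` (MP_5c786f_co)

`A` is a finite abelian group (the letters, the words of a clique), `R` a triangle free relation
on `A` (the pairs that are adjacent only in one fixed coordinate). The blocks are indexed by the
group `A → A`.
-/

namespace Pool.Agent.Lib.MP_5c786f_co

open Filter Topology

namespace Three

section Hash

variable {A : Type} [Fintype A] [DecidableEq A] [AddCommGroup A]

/-- the direction of the block `κ`. -/
def dir (κ : A → A) : A := ∑ a, κ a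

/-- the hash of a word. -/
def hsh (x : (A → A) → A) : A → A := ∑ κ : A → A, Pi.single (dir κ) (x κ)

theorem dir_single (a v : A) : dir (Pi.single a v : A → A) = v := by
  unfold dir
  rw [Finset.sum_eq_single_of_mem a (Finset.mem_univ a)]
  · simp
  · intro b _ hb
    simp [hb]

theorem dir_sub (κ κ' : A → A) : dir (κ - κ') = dir κ - dir κ' := by
  unfold dir
  rw [← Finset.sum_sub_distrib]
  rfl

theorem hsh_update (x : (A → A) → A) (κ : A → A) (v : A) :
    hsh (Function.update x κ v) = hsh x + Pi.single (dir κ) (v - x κ) := by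
  classical
  unfold hsh
  rw [← Finset.add_sum_erase _ _ (Finset.mem_univ κ),
    ← Finset.add_sum_erase _ (fun κ' : A → A => (Pi.single (dir κ') (x κ') : A → A))
      (Finset.mem_univ κ)]
  have h1 : ∑ κ' ∈ Finset.univ.erase κ,
      (Pi.single (dir κ') (Function.update x κ v κ') : A → A) =
      ∑ κ' ∈ Finset.univ.erase κ, Pi.single (dir κ') (x κ') := by
    apply Finset.sum_congr rfl
    intro κ' hκ'
    rw [Function.update_of_ne (Finset.ne_of_mem_erase hκ')]
  rw [h1, Function.update_self, Pi.single_sub]
  abel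

/-- the raised blocks of the lower pattern. -/
def low (R : A → A → Prop) (x : (A → A) → A) (κ : A → A) : Prop :=
  ∃ v, R v (x κ) ∧ hsh (Function.update x κ v) = κ

theorem low_spec {R : A → A → Prop} {x : (A → A) → A} {κ : A → A} (h : low R x κ) :
    ∃ v, R v (x κ) ∧ κ - hsh x = Pi.single (dir κ) (v - x κ) := by
  obtain ⟨v, h1, h2⟩ := h
  refine ⟨v, h1, ?_⟩
  rw [hsh_update] at h2
  rw [sub_eq_iff_eq_add, add_comm]
  exact h2.symm

/-- Two different words, all of whose differing letters are `R` related, differ in a block that is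
not raised in both. -/
theorem low_low {R : A → A → Prop} (htri : ∀ a b c, R a b → R b c → R a c → False)
    {x y : (A → A) → A} (hne : x ≠ y) (hR : ∀ κ, x κ ≠ y κ → R (x κ) (y κ)) :
    ∃ κ, x κ ≠ y κ ∧ ¬ (low R x κ ∧ low R y κ) := by
  classical
  by_contra hcon
  push Not at hcon
  -- the difference of the hashes
  have hdiff : hsh y - hsh x = ∑ κ : A → A, Pi.single (dir κ) (y κ - x κ) := by
    unfold hsh
    rw [← Finset.sum_sub_distrib]
    apply Finset.sum_congr rfl
    intro κ _
    rw [Pi.single_sub]
  have hsingle : ∀ κ, x κ ≠ y κ → ∃ w, hsh y - hsh x = Pi.single (dir κ) w := by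
    intro κ hκ
    obtain ⟨h1, h2⟩ := hcon κ hκ
    obtain ⟨v, _, e1⟩ := low_spec h1
    obtain ⟨v', _, e2⟩ := low_spec h2
    refine ⟨(v - x κ) - (v' - y κ), ?_⟩
    rw [Pi.single_sub, ← e1, ← e2]
    abel
  have hinj : ∀ κ κ', x κ ≠ y κ → x κ' ≠ y κ' → dir κ = dir κ' → κ = κ' := by
    intro κ κ' hκ hκ' hd
    obtain ⟨v, _, e1⟩ := low_spec (hcon κ hκ).1
    obtain ⟨v', _, e2⟩ := low_spec (hcon κ' hκ').1
    have e3 : κ - κ' = Pi.single (dir κ) ((v - x κ) - (v' - x κ')) := by
      rw [Pi.single_sub, ← e1, hd, ← e2]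
      abel
    have e4 : dir (κ - κ') = (v - x κ) - (v' - x κ') := by
      rw [e3, dir_single]
    rw [dir_sub, hd, sub_self] at e4
    rw [← e4, Pi.single_zero] at e3
    exact sub_eq_zero.1 e3
  have hcoord : ∀ κ, x κ ≠ y κ → (hsh y - hsh x) (dir κ) = y κ - x κ := by
    intro κ hκ
    rw [hdiff, Finset.sum_apply, Finset.sum_eq_single_of_mem κ (Finset.mem_univ κ)]
    · rw [Pi.single_eq_same]
    · intro κ' _ hκ'
      by_cases h0 : x κ' = y κ'
      · rw [h0, sub_self, Pi.single_zero]
        rfl
      · apply Pi.single_eq_of_ne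
        intro hd
        exact hκ' (hinj κ κ' hκ h0 hd).symm
  obtain ⟨κ, hκ⟩ := Function.ne_iff.1 hne
  have honly : ∀ κ', x κ' ≠ y κ' → κ' = κ := by
    intro κ' hκ'
    obtain ⟨w, hw⟩ := hsingle κ hκ
    have h1 := hcoord κ' hκ'
    rw [hw] at h1
    by_contra hne'
    have hd : dir κ' ≠ dir κ := fun e => hne' (hinj κ' κ hκ' hκ e)
    rw [Pi.single_eq_of_ne hd] at h1
    exact hκ' (sub_eq_zero.1 h1.symm).symm
  obtain ⟨⟨v, hv, e1⟩, ⟨v', hv', e2⟩⟩ := hcon κ hκ
  have hup : ∀ u, Function.update x κ u = Function.update y κ u := by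
    intro u
    funext κ'
    by_cases h : κ' = κ
    · rw [h, Function.update_self, Function.update_self]
    · rw [Function.update_of_ne h, Function.update_of_ne h]
      by_contra h'
      exact h (honly κ' h')
  have hvv : v = v' := by
    rw [hup v, hsh_update] at e1
    rw [hsh_update] at e2
    have e3 : (Pi.single (dir κ) (v - y κ) : A → A) = Pi.single (dir κ) (v' - y κ) := by
      have := e1.trans e2.symm
      exact add_left_cancel this
    have e4 := congrFun e3 (dir κ)
    rw [Pi.single_eq_same, Pi.single_eq_same] at e4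
    exact sub_left_injective e4
  subst hvv
  exact htri v (x κ) (y κ) hv (hR κ hκ) hv'

/-- A neighbour of `x` in the direction of the block `hsh x` has this block raised. -/
theorem low_of_top {R : A → A → Prop} {x y : (A → A) → A} (hR : R (x (hsh x)) (y (hsh x)))
    (honly : ∀ κ, x κ ≠ y κ → κ = hsh x) : low R y (hsh x) := by
  classical
  refine ⟨x (hsh x), hR, ?_⟩
  have : Function.update y (hsh x) (x (hsh x)) = x := by
    funext κ
    by_cases h : κ = hsh x
    · rw [h, Function.update_self]
    · rw [Function.update_of_ne h]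
      by_contra h'
      exact h (honly κ fun e => h' e.symm)
  rw [this]

end Hash

end Three

end Pool.Agent.Lib.MP_5c786f_co
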