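import Pool.Agent.Lib.MP_5c786f_co.Three

/-!
# The generalized Mycielskian `M_3`: the clique (MP_5c786f_co)
-/

namespace Pool.Agent.Lib.MP_5c786f_co

open Filter Topology

/-- Every clique of an OR power bounds the capacity from below. -/
theorem clique_le_cap {V ι : Type} [Finite V] [Fintype ι] {H : SimpleGraph V} {c : ℝ}
    (hc : IsOrCap H c) (hι : 1 ≤ Fintype.card ι) (Q : Finset (ι → V))
    (hQ : (orPow H ι).IsClique (Q : Set (ι → V))) : (Q.card : ℝ) ≤ c ^ Fintype.card ι := by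
  classical
  rcases Q.eq_empty_or_nonempty with h0 | hne
  · rw [h0, Finset.card_empty, Nat.cast_zero]
    exact pow_nonneg hc.nonneg _
  have e : Fin (Fintype.card ι) ≃ ι := (Fintype.equivFin ι).symm
  set f : (ι → V) → (Fin (Fintype.card ι) → V) := fun w j => w (e j) with hf
  have hinj : Function.Injective f := by
    intro u v huv
    funext x
    have := congrFun huv (e.symm x)
    simpa [hf] using this
  have hcl : (orPow H (Fin (Fintype.card ι))).IsClique
      ((Q.map ⟨f, hinj⟩ : Finset (Fin (Fintype.card ι) → V)) : Set _) := by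
    intro w hw w' hw' hww
    simp only [Finset.coe_map, Function.Embedding.coeFn_mk, Set.mem_image, Finset.mem_coe]
      at hw hw'
    obtain ⟨u, hu, rfl⟩ := hw
    obtain ⟨v, hv, rfl⟩ := hw'
    have huv : u ≠ v := fun h => hww (by rw [h])
    obtain ⟨j, hj⟩ := hQ hu hv huv
    refine ⟨e.symm j, ?_⟩
    simpa [hf] using hj
  refine cap_lower hc (Fintype.card ι) hι _ 1 (by positivity) (le_refl 1) ?_
  intro N
  obtain ⟨R, _, hR2, _, hR4⟩ := clique_pow (S := Set.univ) N (Q.map ⟨f, hinj⟩)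
    (hne.map) hcl (fun _ _ _ => trivial) (N * Fintype.card ι) rfl
  have h := card_le_num H R hR2 (N * Fintype.card ι) (by simp)
  rw [hR4, Finset.card_map] at h
  rw [one_mul]
  exact_mod_cast h

namespace Three

section Lift

variable {V : Type} (G : SimpleGraph V) {k : ℕ} (Q : Finset (Fin (k + 1) → V))

/-- the pairs of words of the clique that are adjacent in the first coordinate only. -/
def rel (a b : Q) : Prop := a ≠ b ∧ ∀ j, j ≠ 0 → ¬ G.Adj (a.1 j) (b.1 j)

variable {G Q}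

theorem rel_adj (hQ : (orPow G (Fin (k + 1))).IsClique (Q : Set (Fin (k + 1) → V))) {a b : Q}
    (h : rel G Q a b) : G.Adj (a.1 0) (b.1 0) := by
  obtain ⟨j, hj⟩ := hQ a.2 b.2 fun e => h.1 (Subtype.ext e)
  by_cases h0 : j = 0
  · rwa [h0] at hj
  · exact absurd hj (h.2 j h0)

theorem not_rel {a b : Q} (hne : a ≠ b) (h : ¬ rel G Q a b) :
    ∃ j, j ≠ 0 ∧ G.Adj (a.1 j) (b.1 j) := by
  by_contra hcon
  push Not at hcon
  exact h ⟨hne, hcon⟩

/-- compatible levels. -/
def cmp (a b : Fin 3) : Prop :=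
  ((a : ℕ) = 0 ∧ (b : ℕ) = 0) ∨ (a : ℕ) + 1 = b ∨ (b : ℕ) + 1 = a

theorem cmp_symm {a b : Fin 3} (h : cmp a b) : cmp b a := by
  rcases h with ⟨h1, h2⟩ | h | h
  · exact Or.inl ⟨h2, h1⟩
  · exact Or.inr (Or.inr h)
  · exact Or.inr (Or.inl h)

variable [AddCommGroup Q] [DecidableEq Q]

open Classical in
/-- the levels of the letters of one super block. -/
noncomputable def pat (G : SimpleGraph V) (top : Prop) (x : (Q → Q) → Q) (κ : Q → Q)
    (l : Fin (k + 1)) : Fin 3 :=
  if l = 0 then (if top then (if κ = hsh x then 2 else 0) else (if low (rel G Q) x κ then 1 else 0))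
  else 0

theorem pat_ne {top : Prop} {x : (Q → Q) → Q} {κ : Q → Q} {l : Fin (k + 1)} (h : l ≠ 0) :
    pat G top x κ l = 0 := by
  unfold pat
  rw [if_neg h]

theorem pat_top {top : Prop} {x : (Q → Q) → Q} (h : top) :
    pat G top x (hsh x) (0 : Fin (k + 1)) = 2 := by
  unfold pat
  rw [if_pos rfl, if_pos h, if_pos rfl]

theorem pat_top' {top : Prop} {x : (Q → Q) → Q} {κ : Q → Q} (h : top) (hκ : κ ≠ hsh x) :
    pat G top x κ (0 : Fin (k + 1)) = 0 := by
  unfold pat
  rw [if_pos rfl, if_pos h, if_neg hκ]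

theorem pat_low {top : Prop} {x : (Q → Q) → Q} {κ : Q → Q} (h : ¬ top)
    (hκ : low (rel G Q) x κ) : pat G top x κ (0 : Fin (k + 1)) = 1 := by
  unfold pat
  rw [if_pos rfl, if_neg h, if_pos hκ]

theorem pat_low' {top : Prop} {x : (Q → Q) → Q} {κ : Q → Q} (h : ¬ top)
    (hκ : ¬ low (rel G Q) x κ) : pat G top x κ (0 : Fin (k + 1)) = 0 := by
  unfold pat
  rw [if_pos rfl, if_neg h, if_neg hκ]

theorem pat_top_low (hQ : (orPow G (Fin (k + 1))).IsClique (Q : Set (Fin (k + 1) → V)))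
    {x y : (Q → Q) → Q} (hne : x ≠ y) {s s' : Prop} (hs : s) (hs' : ¬ s')
    (hR : ∀ κ, x κ ≠ y κ → rel G Q (x κ) (y κ)) :
    ∃ κ l, G.Adj ((x κ).1 l) ((y κ).1 l) ∧ cmp (pat G s x κ l) (pat G s' y κ l) := by
  by_cases h : ∃ κ, x κ ≠ y κ ∧ κ ≠ hsh x
  · obtain ⟨κ, h1, h2⟩ := h
    refine ⟨κ, 0, rel_adj hQ (hR κ h1), ?_⟩
    rw [pat_top' hs h2]
    by_cases h3 : low (rel G Q) y κ
    · rw [pat_low hs' h3]
      exact Or.inr (Or.inl rfl)
    · rw [pat_low' hs' h3]
      exact Or.inl ⟨rfl, rfl⟩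
  · push Not at h
    obtain ⟨κ, hκ⟩ := Function.ne_iff.1 hne
    have hκ' := h κ hκ
    subst hκ'
    refine ⟨hsh x, 0, rel_adj hQ (hR _ hκ), ?_⟩
    rw [pat_top hs, pat_low hs' (low_of_top (hR _ hκ) h)]
    exact Or.inr (Or.inr rfl)

/-- The local lemma. -/
theorem pat_adj (hQ : (orPow G (Fin (k + 1))).IsClique (Q : Set (Fin (k + 1) → V)))
    (htri : ∀ a b c : Q, rel G Q a b → rel G Q b c → rel G Q a c → False)
    {x y : (Q → Q) → Q} (hne : x ≠ y) {s s' : Prop} (hss : ¬ (s ∧ s')) :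
    ∃ κ l, G.Adj ((x κ).1 l) ((y κ).1 l) ∧ cmp (pat G s x κ l) (pat G s' y κ l) := by
  by_cases hR : ∀ κ, x κ ≠ y κ → rel G Q (x κ) (y κ)
  · by_cases hs : s
    · exact pat_top_low hQ hne hs (fun h => hss ⟨hs, h⟩) hR
    · by_cases hs' : s'
      · have hsymm : ∀ κ, y κ ≠ x κ → rel G Q (y κ) (x κ) := by
          intro κ h
          have h1 := hR κ (Ne.symm h)
          exact ⟨h, fun j hj hadj => h1.2 j hj hadj.symm⟩
        obtain ⟨κ, l, h1, h2⟩ := pat_top_low hQ (Ne.symm hne) hs' hs hsymm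
        exact ⟨κ, l, h1.symm, cmp_symm h2⟩
      · obtain ⟨κ, h1, h2⟩ := low_low htri hne hR
        refine ⟨κ, 0, rel_adj hQ (hR κ h1), ?_⟩
        by_cases hx : low (rel G Q) x κ
        · have hy : ¬ low (rel G Q) y κ := fun h => h2 ⟨hx, h⟩
          rw [pat_low hs hx, pat_low' hs' hy]
          exact Or.inr (Or.inr rfl)
        · rw [pat_low' hs hx]
          by_cases hy : low (rel G Q) y κ
          · rw [pat_low hs' hy]
            exact Or.inr (Or.inl rfl)
          · rw [pat_low' hs' hy]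
            exact Or.inl ⟨rfl, rfl⟩
  · push Not at hR
    obtain ⟨κ, h1, h2⟩ := hR
    obtain ⟨j, hj, hadj⟩ := not_rel h1 h2
    refine ⟨κ, j, hadj, ?_⟩
    rw [pat_ne hj, pat_ne hj]
    exact Or.inl ⟨rfl, rfl⟩

/-- the lifted super word. -/
noncomputable def lift (G : SimpleGraph V) (X : ((Q → Q) → Q) → ((Q → Q) → Q)) :
    (((Q → Q) → Q) × (Q → Q) × Fin (k + 1)) → Option (V × Fin 3) :=
  fun p => some ((X p.1 p.2.1).1 p.2.2, pat G (p.1 = ∑ i, X i) (X p.1) p.2.1 p.2.2)

theorem lift_adj (hQ : (orPow G (Fin (k + 1))).IsClique (Q : Set (Fin (k + 1) → V)))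
    (htri : ∀ a b c : Q, rel G Q a b → rel G Q b c → rel G Q a c → False)
    {X Y : ((Q → Q) → Q) → ((Q → Q) → Q)} (hne : X ≠ Y) :
    (orPow (mycielskian G 3) (((Q → Q) → Q) × (Q → Q) × Fin (k + 1))).Adj
      (lift G X) (lift G Y) := by
  classical
  have h : ∃ j, X j ≠ Y j ∧ ¬ (j = ∑ i, X i ∧ j = ∑ i, Y i) := by
    by_contra hcon
    push Not at hcon
    obtain ⟨j, hj⟩ := Function.ne_iff.1 hne
    obtain ⟨h1, h2⟩ := hcon j hj
    have h3 : ∑ i, X i = ∑ i, Y i := h1.symm.trans h2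
    rw [← Finset.add_sum_erase _ _ (Finset.mem_univ j),
      ← Finset.add_sum_erase _ Y (Finset.mem_univ j)] at h3
    have h4 : ∑ i ∈ Finset.univ.erase j, X i = ∑ i ∈ Finset.univ.erase j, Y i := by
      apply Finset.sum_congr rfl
      intro i hi
      by_contra h5
      have h6 := (hcon i h5).1
      exact Finset.ne_of_mem_erase hi (h6.trans h1.symm)
    rw [h4] at h3
    exact hj (add_right_cancel h3)
  obtain ⟨j, hj, hnb⟩ := h
  obtain ⟨κ, l, h1, h2⟩ := pat_adj hQ htri hj hnb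
  exact ⟨(j, κ, l), h1, h2⟩

theorem lift_z (X : ((Q → Q) → Q) → ((Q → Q) → Q)) :
    (orPow (mycielskian G 3) (((Q → Q) → Q) × (Q → Q) × Fin (k + 1))).Adj
      (lift G X) (fun _ => none) := by
  refine ⟨(∑ i, X i, hsh (X (∑ i, X i)), 0), ?_⟩
  have h : pat G ((∑ i, X i) = ∑ i, X i) (X (∑ i, X i)) (hsh (X (∑ i, X i)))
      (0 : Fin (k + 1)) = 2 := pat_top rfl
  change ((pat G ((∑ i, X i) = ∑ i, X i) (X (∑ i, X i)) (hsh (X (∑ i, X i)))
      (0 : Fin (k + 1)) : Fin 3) : ℕ) + 1 = 3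
  rw [h]
  rfl

end Lift

theorem main {V : Type} [Finite V] (G : SimpleGraph V) {k : ℕ} (Q : Finset (Fin (k + 1) → V))
    (hQne : Q.Nonempty)
    (hQ : (orPow G (Fin (k + 1))).IsClique (Q : Set (Fin (k + 1) → V)))
    (htri : ∀ a b c : Q, rel G Q a b → rel G Q b c → rel G Q a c → False)
    (c c' : ℝ) (hc0 : 0 ≤ c) (hc' : IsOrCap (mycielskian G 3) c')
    (hcQ : c ^ (k + 1) ≤ Q.card) : c < c' := by
  classical
  haveI hne : Nonempty Q := hQne.to_subtype
  haveI : NeZero (Fintype.card Q) := ⟨Fintype.card_pos.ne'⟩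
  have eQ : Q ≃ ZMod (Fintype.card Q) := Fintype.equivOfCardEq (ZMod.card _).symm
  letI : AddCommGroup Q := eQ.addCommGroup
  set W := ((Q → Q) → Q) with hW
  set L : (W → W) → ((W × (Q → Q) × Fin (k + 1)) → Option (V × Fin 3)) := lift G with hL
  have hadj : ∀ X Y, X ≠ Y → (orPow (mycielskian G 3) (W × (Q → Q) × Fin (k + 1))).Adj
      (L X) (L Y) := fun X Y h => lift_adj hQ htri h
  have hinj : Function.Injective L := by
    intro X Y h
    by_contra hne'
    have := hadj X Y hne'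
    rw [h] at this
    exact (orPow (mycielskian G 3) (W × (Q → Q) × Fin (k + 1))).irrefl this
  have hz : (fun _ => none) ∉ (Finset.univ : Finset (W → W)).map ⟨L, hinj⟩ := by
    intro h
    obtain ⟨X, _, hX⟩ := Finset.mem_map.1 h
    have := congrFun hX (0, 0, 0)
    exact Option.some_ne_none _ this
  have hclq : (orPow (mycielskian G 3) (W × (Q → Q) × Fin (k + 1))).IsClique
      ((insert (fun _ => none) ((Finset.univ : Finset (W → W)).map ⟨L, hinj⟩) :
        Finset ((W × (Q → Q) × Fin (k + 1)) → Option (V × Fin 3))) : Set _) := by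
    intro u hu v hv huv
    simp only [Finset.coe_insert, Finset.coe_map, Function.Embedding.coeFn_mk, Finset.coe_univ,
      Set.image_univ, Set.mem_insert_iff, Set.mem_range] at hu hv
    rcases hu with rfl | ⟨X, rfl⟩
    · rcases hv with rfl | ⟨Y, rfl⟩
      · exact absurd rfl huv
      · exact (lift_z Y).symm
    · rcases hv with rfl | ⟨Y, rfl⟩
      · exact lift_z X
      · exact hadj X Y fun h => huv (by rw [h])
  have hpos : 1 ≤ Fintype.card (W × (Q → Q) × Fin (k + 1)) := Fintype.card_pos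
  have h1 := clique_le_cap hc' hpos _ hclq
  rw [Finset.card_insert_of_notMem hz, Finset.card_map, Finset.card_univ] at h1
  have h2 : Fintype.card (W → W) = Fintype.card Q ^ (Fintype.card (Q → Q) * Fintype.card W) := by
    have hWc : Fintype.card W = Fintype.card Q ^ Fintype.card (Q → Q) := Fintype.card_fun
    rw [Fintype.card_fun, pow_mul, ← hWc]
  have h3 : Fintype.card (W × (Q → Q) × Fin (k + 1)) =
      (k + 1) * (Fintype.card (Q → Q) * Fintype.card W) := by
    rw [Fintype.card_prod, Fintype.card_prod, Fintype.card_fin]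
    ring
  rw [h2, h3, Fintype.card_coe] at h1
  by_contra hcon
  push Not at hcon
  have h4 : c' ^ ((k + 1) * (Fintype.card (Q → Q) * Fintype.card W)) ≤
      (Q.card : ℝ) ^ (Fintype.card (Q → Q) * Fintype.card W) := by
    rw [pow_mul]
    apply pow_le_pow_left₀ (pow_nonneg hc'.nonneg _)
    exact (pow_le_pow_left₀ hc'.nonneg hcon _).trans hcQ
  push_cast at h1
  linarith

end Three

end Pool.Agent.Lib.MP_5c786f_co
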