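import Pool.Agent.Lib.MP_5c786f_co.ThreeLift

/-!
# The pentagon and `M_3` (MP_5c786f_co)
-/

namespace Pool.Agent.Lib.MP_5c786f_co

open Filter Topology

namespace Three

/-- the clique of the second power of the pentagon. -/
def pQ : Finset (Fin (1 + 1) → (Fin 1 × ZMod 5 ⊕ Fin 0)) :=
  (Finset.univ : Finset (ZMod 5)).map ⟨Pent.pw (n := 0) (0 : Fin 1), Pent.pw_inj 0⟩

theorem mem_pQ {w : Fin (1 + 1) → (Fin 1 × ZMod 5 ⊕ Fin 0)} (h : w ∈ pQ) :
    ∃ i, Pent.pw (n := 0) (0 : Fin 1) i = w := by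
  obtain ⟨i, _, hi⟩ := Finset.mem_map.1 h
  exact ⟨i, hi⟩

theorem pQ_card : pQ.card = 5 := by
  unfold pQ
  rw [Finset.card_map, Finset.card_univ, ZMod.card]

theorem pQ_clique : (orPow (pentJoin 1 0) (Fin (1 + 1))).IsClique
    (pQ : Set (Fin (1 + 1) → (Fin 1 × ZMod 5 ⊕ Fin 0))) := by
  intro w hw w' hw' hww
  obtain ⟨i, rfl⟩ := mem_pQ hw
  obtain ⟨i', rfl⟩ := mem_pQ hw'
  have hii : i ≠ i' := fun e => hww (by rw [e])
  rcases Pent.five_cases i i' hii with h | h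
  · exact ⟨0, Or.inr h⟩
  · refine ⟨1, ?_⟩
    have : (pentJoin 1 0).Adj (Sum.inl ((0 : Fin 1), 2 * i)) (Sum.inl (0, 2 * i')) := Or.inr h
    simpa [Pent.pw] using this

theorem five_tri : ∀ i j l : ZMod 5, (i = j + 1 ∨ j = i + 1) → (j = l + 1 ∨ l = j + 1) →
    (i = l + 1 ∨ l = i + 1) → False := by decide

theorem pQ_tri (a b c : pQ) (hab : rel (pentJoin 1 0) pQ a b) (hbc : rel (pentJoin 1 0) pQ b c)
    (hac : rel (pentJoin 1 0) pQ a c) : False := by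
  have h1 := rel_adj pQ_clique hab
  have h2 := rel_adj pQ_clique hbc
  have h3 := rel_adj pQ_clique hac
  obtain ⟨i, hi⟩ := mem_pQ a.2
  obtain ⟨j, hj⟩ := mem_pQ b.2
  obtain ⟨l, hl⟩ := mem_pQ c.2
  rw [← hi, ← hj] at h1
  rw [← hj, ← hl] at h2
  rw [← hi, ← hl] at h3
  have e : ∀ i j : ZMod 5, (pentJoin 1 0).Adj (Pent.pw (n := 0) (0 : Fin 1) i 0)
      (Pent.pw (n := 0) (0 : Fin 1) j 0) → (i = j + 1 ∨ j = i + 1) := by
    intro i j h
    have h' : (0 : Fin 1) ≠ 0 ∨ i = j + 1 ∨ j = i + 1 := h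
    rcases h' with h' | h'
    · exact absurd rfl h'
    · exact h'
  exact five_tri i j l (e _ _ h1) (e _ _ h2) (e _ _ h3)

theorem pent_three : IsOrCap (pentJoin 1 0) (√5) ∧
    ∃ c', IsOrCap (mycielskian (pentJoin 1 0) 3) c' ∧ √5 < c' := by
  refine ⟨?_, ?_⟩
  · have h := pent_cap 1 0 (le_refl 1)
    simpa using h
  · obtain ⟨c', hc'⟩ := exists_orCap (mycielskian (pentJoin 1 0) 3)
    refine ⟨c', hc', ?_⟩
    refine main (pentJoin 1 0) pQ ?_ pQ_clique pQ_tri (√5) c' (Real.sqrt_nonneg _) hc' ?_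
    · rw [← Finset.card_pos, pQ_card]
      norm_num
    · rw [pQ_card]
      have : √5 ^ (1 + 1) = (5 : ℝ) := Real.sq_sqrt (by norm_num)
      rw [this]
      norm_num

end Three

end Pool.Agent.Lib.MP_5c786f_co
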